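import Pool.Agent.H.MP_2e716c_an.Geo3

/-!
The interval system of an arbitrary finite set `W` of unit directions without connection directions:
orbits are killed when they leave the sides of `S` or the directions of `W`.
(After `Geo3` of helper26 and team, where `W` is closed under the reflections in the sides of `S`.)
-/

open Set MeasureTheory Filter Topology

namespace Pool.Agent.MP2e716c

noncomputable section

namespace Table

variable {n : ℕ} [NeZero n] (T : Table n)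

/-- A finite set of unit directions without connection directions. -/
structure Dirs (W : Finset ℂ) : Prop where
  unit : ∀ w ∈ W, ‖w‖ = 1
  noconn : ∀ w ∈ W, w ∉ T.conn

/-- Backward singular states. -/
def singC (S : Set (Fin n)) (W : Finset ℂ) : Set ((Fin n × W) × ℝ) :=
  {z | 0 < z.2 ∧ z.2 < T.lenW W z.1 ∧ z.1.1 ∈ S ∧ T.rfl' z.1.1 z.1.2 ∈ W ∧
    ¬ ∃ a, T.Next a (T.st z.1.1 z.1.2 z.2)}

variable {T}

theorem b1_mem (hT : T.Straight) {W : Finset ℂ} (hW : T.Dirs W)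
    {z : (Fin n × W) × ℝ} (hz : 0 < z.2) (hz' : z.2 < T.lenW W z.1) :
    T.st z.1.1 z.1.2 z.2 ∈ T.phase ∧ T.vel (T.st z.1.1 z.1.2 z.2) = z.1.2 :=
  st_mem hT (hW.unit _ z.1.2.2) (geo3_nw_pos hz hz') hz hz'

/-- A state is determined by its phase point. -/
theorem b1_ext (hT : T.Straight) {W : Finset ℂ} (hW : T.Dirs W)
    {z w : (Fin n × W) × ℝ} (hz : 0 < z.2) (hz' : z.2 < T.lenW W z.1)
    (hw : 0 < w.2) (hw' : w.2 < T.lenW W w.1)
    (h : T.st z.1.1 z.1.2 z.2 = T.st w.1.1 w.1.2 w.2) : z = w := by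
  obtain ⟨-, e1⟩ := b1_mem hT hW hz hz'
  obtain ⟨-, e2⟩ := b1_mem hT hW hw hw'
  have h1 : z.1.1 = w.1.1 := congrArg (fun a => a.1) h
  have h2 : (z.1.2 : ℂ) = w.1.2 := by rw [← e1, ← e2, h]
  have h3 : z.2 / T.nw z.1.1 z.1.2 = w.2 / T.nw w.1.1 w.1.2 := congrArg (fun a => a.2.1) h
  have p1 := geo3_nw_pos hz hz'
  obtain ⟨⟨i, v⟩, x⟩ := z
  obtain ⟨⟨j, u⟩, x'⟩ := w
  simp only at h1 h2 h3 p1
  subst h1
  have h4 : v = u := Subtype.ext h2
  subst h4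
  have h5 : x = x' := by
    field_simp at h3
    exact h3
  rw [h5]

/-- Recover the coordinates of a state from its phase point. -/
theorem b1_coord (hT : T.Straight) {W : Finset ℂ} (hW : T.Dirs W)
    {y : (Fin n × W) × ℝ} (hy : 0 < y.2) (hy' : y.2 < T.lenW W y.1)
    (hv : T.vel (T.st y.1.1 y.1.2 y.2) ∈ W) :
    ((((T.st y.1.1 y.1.2 y.2).1, ⟨T.vel (T.st y.1.1 y.1.2 y.2), hv⟩),
      (T.st y.1.1 y.1.2 y.2).2.1 * Real.cos (T.st y.1.1 y.1.2 y.2).2.2) : (Fin n × W) × ℝ) = y := by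
  obtain ⟨hm, e1⟩ := b1_mem hT hW hy hy'
  have h1 := nw_vel hT hm
  rw [e1] at h1
  have hp := geo3_nw_pos hy hy'
  have h2 : (T.st y.1.1 y.1.2 y.2).2.1 * Real.cos (T.st y.1.1 y.1.2 y.2).2.2 = y.2 := by
    rw [← h1]
    show y.2 / T.nw y.1.1 y.1.2 * T.nw y.1.1 y.1.2 = y.2
    field_simp
  refine Prod.ext (Prod.ext rfl (Subtype.ext e1)) h2

/-- Characterisation of `nextW` by the (unique) successor. -/
theorem nextW_some_of {S : Set (Fin n)} {W : Finset ℂ}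
    {z : (Fin n × W) × ℝ} {a : Fin n × ℝ × ℝ}
    (h : T.Next (T.st z.1.1 z.1.2 z.2) a) (ha : a.1 ∈ S) (hv : T.vel a ∈ W) :
    T.nextW S W z = some ((a.1, ⟨T.vel a, hv⟩), a.2.1 * Real.cos a.2.2) := by
  have hex : ∃ a, T.Next (T.st z.1.1 z.1.2 z.2) a ∧ a.1 ∈ S ∧ T.vel a ∈ W := ⟨a, h, ha, hv⟩
  rw [nextW, dif_pos hex]
  have key : ∀ (b : Fin n × ℝ × ℝ) (hb : b = a) (hv' : T.vel b ∈ W),
      (some ((b.1, ⟨T.vel b, hv'⟩), b.2.1 * Real.cos b.2.2) : Option ((Fin n × W) × ℝ)) =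
        some ((a.1, ⟨T.vel a, hv⟩), a.2.1 * Real.cos a.2.2) := by
    rintro b rfl hv'; rfl
  exact key _ (T.next_unique hex.choose_spec.1 h) _

theorem nextW_none_of {S : Set (Fin n)} {W : Finset ℂ}
    {z : (Fin n × W) × ℝ} {a : Fin n × ℝ × ℝ}
    (h : T.Next (T.st z.1.1 z.1.2 z.2) a) (ha : ¬ (a.1 ∈ S ∧ T.vel a ∈ W)) :
    T.nextW S W z = none := by
  rw [nextW, dif_neg]
  rintro ⟨b, hb, hbS⟩
  exact ha (T.next_unique hb h ▸ hbS)

theorem nextW_some_iffB (hT : T.Straight) {S : Set (Fin n)} {W : Finset ℂ} (hW : T.Dirs W)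
    {z y : (Fin n × W) × ℝ} :
    T.nextW S W z = some y ↔
      y.1.1 ∈ S ∧ T.Next (T.st z.1.1 z.1.2 z.2) (T.st y.1.1 y.1.2 y.2) ∧
        0 < y.2 ∧ y.2 < T.lenW W y.1 := by
  constructor
  · intro h
    rw [nextW] at h
    split_ifs at h with hex
    · obtain ⟨h1, h2, h3⟩ := hex.choose_spec
      have hph : hex.choose ∈ T.phase := h1.2.1
      obtain ⟨e1, e2, e3⟩ := st_eq hT hph
      have hy := Option.some.inj h
      rw [← hy]
      refine ⟨h2, ?_, e2, e3⟩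
      show T.Next (T.st z.1.1 z.1.2 z.2) (T.st hex.choose.1 (T.vel hex.choose)
        (hex.choose.2.1 * Real.cos hex.choose.2.2))
      rw [e1]
      exact h1
  · rintro ⟨h1, h2, h3, h4⟩
    have hv : T.vel (T.st y.1.1 y.1.2 y.2) ∈ W := by
      rw [(b1_mem hT hW h3 h4).2]
      exact y.1.2.2
    rw [nextW_some_of h2 h1 hv]
    exact congrArg some (b1_coord hT hW h3 h4 hv)

/-- `finite_singular`, finitely many lines. -/
theorem singF_finiteB (hT : T.Straight) {W : Finset ℂ} (hW : T.Dirs W) :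
    (T.singF W).Finite := by
  have hfin : ∀ p : Fin n × W, {x : ℝ | 0 < x ∧ x < T.lenW W p ∧
      ¬ ∃ a, T.Next (T.st p.1 p.2 x) a}.Finite := by
    intro p
    by_cases hp : 0 < T.nw p.1 p.2
    · exact finite_singular hT (hW.unit _ p.2.2) (hW.noconn _ p.2.2) hp
    · have : {x : ℝ | 0 < x ∧ x < T.lenW W p ∧ ¬ ∃ a, T.Next (T.st p.1 p.2 x) a} = ∅ := by
        ext x
        simp only [mem_ofPred_eq, mem_empty_iff_false, iff_false]
        rintro ⟨h1, h2, -⟩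
        exact hp (geo3_nw_pos (z := (p, x)) h1 h2)
      rw [this]
      exact finite_empty
  refine (finite_iUnion fun p => (hfin p).image (fun x => (p, x))).subset ?_
  rintro ⟨p, x⟩ ⟨h1, h2, h3⟩
  exact mem_iUnion.2 ⟨p, x, ⟨h1, h2, h3⟩, rfl⟩

/-- The velocity after the next collision only depends on the side hit and on the direction. -/
theorem b1_vel_next (hT : T.Straight) {W : Finset ℂ} (hW : T.Dirs W)
    {z : (Fin n × W) × ℝ} (hz : 0 < z.2) (hz' : z.2 < T.lenW W z.1) {a : Fin n × ℝ × ℝ}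
    (h : T.Next (T.st z.1.1 z.1.2 z.2) a) : T.vel a = T.rfl' a.1 z.1.2 := by
  obtain ⟨-, e1⟩ := b1_mem hT hW hz hz'
  obtain ⟨-, -, τ, -, -, -, hinc⟩ := id h
  rw [vel_eq_rfl' hT a, hinc, e1]

/-- `st_next_loc`. -/
theorem nextW_locB (hT : T.Straight) {S : Set (Fin n)} {W : Finset ℂ} (hW : T.Dirs W)
    (z : (Fin n × W) × ℝ) (hz : 0 < z.2) (hz' : z.2 < T.lenW W z.1) (hD : z ∉ T.singF W) :
    ∃ ε > 0, (∀ t : ℝ, |t| < ε → sh z t ∉ T.singF W) ∧
    ((∀ t : ℝ, |t| < ε → T.nextW S W (sh z t) = none) ∨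
      ∃ y : (Fin n × W) × ℝ, 0 < y.2 ∧ y.2 < T.lenW W y.1 ∧
        ∀ t : ℝ, |t| < ε → T.nextW S W (sh z t) = some (sh y (-t))) := by
  have hex : ∃ a, T.Next (T.st z.1.1 z.1.2 z.2) a := by
    by_contra h
    exact hD ⟨hz, hz', h⟩
  obtain ⟨a, ha⟩ := hex
  obtain ⟨ε, hε, hloc⟩ := st_next_loc hT (hW.unit _ z.1.2.2) (geo3_nw_pos hz hz') ha
  obtain ⟨hm, e0⟩ := b1_mem hT hW hz hz'
  have hd1 : 0 < T.lenW W z.1 - z.2 := by linarith
  obtain ⟨e1, e2, e3⟩ := st_eq hT ha.2.1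
  set x' := a.2.1 * Real.cos a.2.2 with hx'
  have hd2 : 0 < T.len a.1 * T.nw a.1 (T.vel a) - x' := by linarith
  by_cases haS : a.1 ∈ S ∧ T.vel a ∈ W
  · obtain ⟨haS, hv⟩ := haS
    refine ⟨min ε (min (min z.2 (T.lenW W z.1 - z.2))
      (min x' (T.len a.1 * T.nw a.1 (T.vel a) - x'))),
      lt_min hε (lt_min (lt_min hz hd1) (lt_min e2 hd2)), ?_, Or.inr ?_⟩
    · intro t ht hcon
      exact hcon.2.2 ⟨_, hloc t (ht.trans_le (min_le_left _ _))⟩
    · refine ⟨((a.1, ⟨T.vel a, hv⟩), x'), e2, e3, ?_⟩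
      intro t ht
      have t1 : |t| < ε := ht.trans_le (min_le_left _ _)
      have t4 : |t| < x' := ht.trans_le
        ((min_le_right _ _).trans ((min_le_right _ _).trans (min_le_left _ _)))
      have t5 : |t| < T.len a.1 * T.nw a.1 (T.vel a) - x' := ht.trans_le
        ((min_le_right _ _).trans ((min_le_right _ _).trans (min_le_right _ _)))
      have u4 := abs_lt.1 t4
      have u5 := abs_lt.1 t5
      refine (nextW_some_iffB hT hW (z := sh z t)).2 ⟨haS, ?_, ?_, ?_⟩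
      · exact hloc t t1
      · show 0 < x' + -t
        linarith [u4.2]
      · show x' + -t < T.len a.1 * T.nw a.1 (T.vel a)
        linarith [u5.1]
  · refine ⟨min ε (min (min z.2 (T.lenW W z.1 - z.2))
      (min x' (T.len a.1 * T.nw a.1 (T.vel a) - x'))),
      lt_min hε (lt_min (lt_min hz hd1) (lt_min e2 hd2)), ?_, Or.inl ?_⟩
    · intro t ht hcon
      exact hcon.2.2 ⟨_, hloc t (ht.trans_le (min_le_left _ _))⟩
    · intro t ht
      have t1 : |t| < ε := ht.trans_le (min_le_left _ _)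
      have t2 : |t| < z.2 := ht.trans_le
        ((min_le_right _ _).trans ((min_le_left _ _).trans (min_le_left _ _)))
      have t3 : |t| < T.lenW W z.1 - z.2 := ht.trans_le
        ((min_le_right _ _).trans ((min_le_left _ _).trans (min_le_right _ _)))
      have u2 := abs_lt.1 t2
      have u3 := abs_lt.1 t3
      have hn : T.Next (T.st (sh z t).1.1 (sh z t).1.2 (sh z t).2)
          (T.st a.1 (T.vel a) (a.2.1 * Real.cos a.2.2 - t)) := hloc t t1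
      refine nextW_none_of hn ?_
      rintro ⟨hS, hv⟩
      apply haS
      refine ⟨hS, ?_⟩
      have h1 := b1_vel_next hT hW (z := sh z t) (show 0 < z.2 + t by linarith [u2.1])
        (show z.2 + t < T.lenW W z.1 by linarith [u3.2]) hn
      have h2 := b1_vel_next hT hW hz hz' ha
      rw [h1] at hv
      rw [h2]
      exact hv

/-- `next_inj`. -/
theorem nextW_injB (hT : T.Straight) {S : Set (Fin n)} {W : Finset ℂ} (hW : T.Dirs W)
    (z w y : (Fin n × W) × ℝ) (hz : 0 < z.2) (hz' : z.2 < T.lenW W z.1)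
    (hw : 0 < w.2) (hw' : w.2 < T.lenW W w.1)
    (h : T.nextW S W z = some y) (h' : T.nextW S W w = some y) : z = w := by
  obtain ⟨-, h1, -, -⟩ := (nextW_some_iffB hT hW).1 h
  obtain ⟨-, h2, -, -⟩ := (nextW_some_iffB hT hW).1 h'
  exact b1_ext hT hW hz hz' hw hw' (T.next_inj h1 h2)

/-- Velocity of a predecessor. -/
theorem b1_vel_pred (hT : T.Straight) {W : Finset ℂ} (hW : T.Dirs W)
    {y : (Fin n × W) × ℝ} (hy : 0 < y.2) (hy' : y.2 < T.lenW W y.1) {a : Fin n × ℝ × ℝ}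
    (h : T.Next a (T.st y.1.1 y.1.2 y.2)) : T.vel a = T.rfl' y.1.1 y.1.2 := by
  obtain ⟨-, e0⟩ := b1_mem hT hW hy hy'
  obtain ⟨-, -, τ, -, -, -, hinc⟩ := id h
  rw [← hinc, inc_eq_rfl' hT, e0]
  rfl

/-- If `y.1.1 ∉ S` or the incoming direction is not in `W`, no state is mapped near `y`. -/
theorem nextW_backB (hT : T.Straight) {S : Set (Fin n)} {W : Finset ℂ} (hW : T.Dirs W)
    (y : (Fin n × W) × ℝ) (hy : 0 < y.2) (hy' : y.2 < T.lenW W y.1) (hD : y ∉ T.singC S W) :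
    (∃ z : (Fin n × W) × ℝ, 0 < z.2 ∧ z.2 < T.lenW W z.1 ∧ z ∉ T.singF W ∧
      T.nextW S W z = some y) ∨
    (∃ ε > 0, ∀ t : ℝ, |t| < ε → ∀ z : (Fin n × W) × ℝ, 0 < z.2 → z.2 < T.lenW W z.1 →
      z ∉ T.singF W → T.nextW S W z ≠ some (sh y t)) := by
  by_cases hS : y.1.1 ∈ S ∧ T.rfl' y.1.1 y.1.2 ∈ W
  · left
    have hex : ∃ a, T.Next a (T.st y.1.1 y.1.2 y.2) := by
      by_contra h
      exact hD ⟨hy, hy', hS.1, hS.2, h⟩
    obtain ⟨a, ha⟩ := hex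
    have hv : T.vel a ∈ W := by
      rw [b1_vel_pred hT hW hy hy' ha]
      exact hS.2
    obtain ⟨e1, e2, e3⟩ := st_eq hT ha.1
    have hN : T.Next (T.st a.1 (T.vel a) (a.2.1 * Real.cos a.2.2)) (T.st y.1.1 y.1.2 y.2) := by
      rw [e1]; exact ha
    refine ⟨((a.1, ⟨T.vel a, hv⟩), a.2.1 * Real.cos a.2.2), e2, e3, ?_, ?_⟩
    · rintro ⟨-, -, hno⟩
      exact hno ⟨_, hN⟩
    · exact (nextW_some_iffB hT hW (z := ((a.1, ⟨T.vel a, hv⟩), a.2.1 * Real.cos a.2.2))).2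
        ⟨hS.1, hN, hy, hy'⟩
  · right
    refine ⟨1, one_pos, fun t _ z hz hz' _ h => ?_⟩
    apply hS
    obtain ⟨h1, h2, h3, h4⟩ := (nextW_some_iffB hT hW).1 h
    refine ⟨h1, ?_⟩
    have h5 := b1_vel_pred hT hW h3 h4 h2
    rw [(b1_mem hT hW hz hz').2] at h5
    have h6 : T.rfl' (sh y t).1.1 (sh y t).1.2 = T.rfl' y.1.1 y.1.2 := rfl
    rw [← h6, ← h5]
    exact z.1.2.2

/-- The interval system of a finite set of directions. -/
def sysB (hT : T.Straight) (S : Set (Fin n)) {W : Finset ℂ} (hW : T.Dirs W) :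
    IntSys (Fin n × W) where
  ℓ := T.lenW W
  T := T.nextW S W
  D := T.singF W
  Db := T.singC S W
  D_fin := singF_finiteB hT hW
  loc := nextW_locB hT hW
  inj := fun z w y hz hz' _ hw hw' _ h h' => nextW_injB hT hW z w y hz hz' hw hw' h h'
  back := nextW_backB hT hW

/-- No connections (see `sys_noConn`). -/
theorem sysB_noConn (hT : T.Straight) (S : Set (Fin n)) {W : Finset ℂ} (hW : T.Dirs W) :
    (sysB hT S hW).NoConn := by
  intro y hyV hyB k z hsteps hzF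
  have hyV' : 0 < y.2 ∧ y.2 < T.lenW W y.1 := hyV
  obtain ⟨-, -, hyS, hincW0, hyno⟩ : 0 < y.2 ∧ y.2 < T.lenW W y.1 ∧ y.1.1 ∈ S ∧
    T.rfl' y.1.1 y.1.2 ∈ W ∧ ¬ ∃ a, T.Next a (T.st y.1.1 y.1.2 y.2) := hyB
  obtain ⟨hz1, hz2, hzno⟩ : 0 < z.2 ∧ z.2 < T.lenW W z.1 ∧
    ¬ ∃ a, T.Next (T.st z.1.1 z.1.2 z.2) a := hzF
  obtain ⟨hym, hyv⟩ := b1_mem hT hW hyV'.1 hyV'.2
  obtain ⟨hzm, hzv⟩ := b1_mem hT hW hz1 hz2
  have hincW : T.inc (T.st y.1.1 y.1.2 y.2) ∈ W := by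
    rw [inc_eq_rfl' hT, hyv]
    exact hincW0
  -- backward corner
  have hback : ∃ τ : ℝ, 0 < τ ∧ ∃ j, T.γ j 0 = T.pt (T.st y.1.1 y.1.2 y.2) -
      τ * T.inc (T.st y.1.1 y.1.2 y.2) := by
    rcases T.next_or_bad (T.rev_mem hym) with ⟨a, ha⟩ | ⟨τ, hτ, -, ⟨j, hj⟩ | ⟨j, s, hs, -, hperp⟩⟩
    · refine absurd ⟨rev a, ?_⟩ hyno
      have := T.next_rev ha
      rwa [rev_rev] at this
    · refine ⟨τ, hτ, j, ?_⟩
      rw [hj, T.pt_rev, T.vel_rev]
      ring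
    · exfalso
      rw [T.vel_rev, ip_neg_left, neg_eq_zero, straight_deriv hT] at hperp
      exact nw_ne_zero hT (hW.unit _ hincW) (hW.noconn _ hincW) j hperp
  obtain ⟨τ, hτ, k0, hk0⟩ := hback
  -- forward corner
  have hfor : ∃ τ : ℝ, 0 < τ ∧ ∃ j, T.γ j 0 = T.pt (T.st z.1.1 z.1.2 z.2) +
      τ * T.vel (T.st z.1.1 z.1.2 z.2) := by
    rcases next_or_corner hT hzm (by rw [hzv]; exact hW.noconn _ z.1.2.2) with h | h
    · exact absurd h hzno
    · exact h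
  obtain ⟨σ, hσ, j, hj⟩ := hfor
  -- unfolding
  have hunf : ∀ (k : ℕ) (y : (Fin n × W) × ℝ), 0 < y.2 → y.2 < T.lenW W y.1 →
      (sysB hT S hW).Steps k y z → ∃ (L : List (Fin n)) (σ' : ℝ), 0 < σ' ∧
        T.unf L (T.γ j 0) = T.pt (T.st y.1.1 y.1.2 y.2) +
          σ' * T.vel (T.st y.1.1 y.1.2 y.2) := by
    intro k
    induction k with
    | zero =>
      intro y _ _ hs
      have hs' : y = z := hs
      subst hs'
      exact ⟨[], σ, hσ, hj⟩
    | succ k ih =>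
      intro y hy hy' hs
      obtain ⟨y1, hstep, hrest⟩ : ∃ y1, (sysB hT S hW).Step y y1 ∧
        (sysB hT S hW).Steps k y1 z := hs
      obtain ⟨-, -, hnext⟩ := hstep
      obtain ⟨-, hN, hy1, hy1'⟩ := (nextW_some_iffB hT hW).1 hnext
      obtain ⟨L, σ1, hσ1, hL⟩ := ih y1 hy1 hy1' hrest
      obtain ⟨σ2, hσ2, hr⟩ := unfold_step hT hN hσ1.le hL
      exact ⟨y1.1.1 :: L, σ2, hσ2, hr⟩
  obtain ⟨L, σ1, hσ1, hL⟩ := hunf k y hyV'.1 hyV'.2 hsteps
  obtain ⟨σ2, hσ2, hr⟩ := unfold_start hT hym hτ hk0 hσ1.le hL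
  refine hW.noconn _ hincW ⟨hW.unit _ hincW, y.1.1 :: L, k0, j, σ2, hσ2, hr⟩

end Table

end

end Pool.Agent.MP2e716c
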