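import Pool.Agent.H.MP_2e716c_an.helper20.B1
import Pool.Agent.H.MP_2e716c_an.IS5

/-! Mortal phase points for a set of sides and a finite set of directions (after `Geo4`). -/

open Set MeasureTheory Filter Topology

namespace Pool.Agent.MP2e716c

noncomputable section

namespace Table

variable {n : ℕ} [NeZero n] (T : Table n)

/-- The phase point is on a side of `S` and its velocity is in `W`. -/
def InSW (S : Set (Fin n)) (W : Finset ℂ) (a : Fin n × ℝ × ℝ) : Prop := a.1 ∈ S ∧ T.vel a ∈ W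

/-- Mortal phase points: the forward orbit leaves `S × W` (the start does not count). -/
def MExB (S : Set (Fin n)) (W : Finset ℂ) : ℕ → Set (Fin n × ℝ × ℝ)
  | 0 => {z | ∃ a, T.Next z a ∧ ¬ T.InSW S W a}
  | k + 1 => {z | ∃ a, T.Next z a ∧ T.InSW S W a ∧ a ∈ MExB S W k}

def MortB (S : Set (Fin n)) (W : Finset ℂ) : Set (Fin n × ℝ × ℝ) := ⋃ k, T.MExB S W k

variable {T}

theorem mortB_of_next_not {S : Set (Fin n)} {W : Finset ℂ} {z a : Fin n × ℝ × ℝ}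
    (h : T.Next z a) (ha : ¬ T.InSW S W a) : z ∈ T.MortB S W :=
  mem_iUnion.2 ⟨0, a, h, ha⟩

theorem mortB_iff_of_next {S : Set (Fin n)} {W : Finset ℂ} {z a : Fin n × ℝ × ℝ}
    (h : T.Next z a) (ha : T.InSW S W a) : z ∈ T.MortB S W ↔ a ∈ T.MortB S W := by
  constructor
  · intro hz
    obtain ⟨k, hk⟩ := mem_iUnion.1 hz
    cases k with
    | zero =>
      obtain ⟨b, hb, hbS⟩ := hk
      rw [T.next_unique hb h] at hbS
      exact absurd ha hbS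
    | succ k =>
      obtain ⟨b, hb, hbS, hbk⟩ := hk
      rw [T.next_unique hb h] at hbk
      exact mem_iUnion.2 ⟨k, hbk⟩
  · intro haM
    obtain ⟨k, hk⟩ := mem_iUnion.1 haM
    exact mem_iUnion.2 ⟨k + 1, a, h, ha, hk⟩

theorem b2_mem_Ex_iff (hT : T.Straight) {S : Set (Fin n)} {W : Finset ℂ} (hW : T.Dirs W)
    (k : ℕ) (z : (Fin n × W) × ℝ) (hz : 0 < z.2) (hz' : z.2 < T.lenW W z.1) :
    z ∈ (sysB hT S hW).Ex k ↔ T.st z.1.1 z.1.2 z.2 ∈ T.MExB S W k := by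
  induction k generalizing z with
  | zero =>
    constructor
    · rintro ⟨-, hD, hN⟩
      have hD' : ¬ (0 < z.2 ∧ z.2 < T.lenW W z.1 ∧ ¬ ∃ a, T.Next (T.st z.1.1 z.1.2 z.2) a) := hD
      have hN' : T.nextW S W z = none := hN
      have hex : ∃ a, T.Next (T.st z.1.1 z.1.2 z.2) a := by
        by_contra hcon
        exact hD' ⟨hz, hz', hcon⟩
      obtain ⟨a, ha⟩ := hex
      refine ⟨a, ha, fun haS => ?_⟩
      have he := nextW_some_of ha haS.1 haS.2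
      rw [hN'] at he
      exact absurd he (by simp)
    · rintro ⟨a, ha, haS⟩
      refine ⟨⟨hz, hz'⟩, ?_, ?_⟩
      · intro hD
        have hD' : 0 < z.2 ∧ z.2 < T.lenW W z.1 ∧ ¬ ∃ a, T.Next (T.st z.1.1 z.1.2 z.2) a := hD
        exact hD'.2.2 ⟨a, ha⟩
      · exact nextW_none_of ha haS
  | succ k ih =>
    constructor
    · rintro ⟨y, ⟨-, -, hN⟩, hy⟩
      have hN' : T.nextW S W z = some y := hN
      obtain ⟨h1, h2, h3, h4⟩ := (nextW_some_iffB hT hW).1 hN'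
      refine ⟨T.st y.1.1 y.1.2 y.2, h2, ⟨h1, ?_⟩, (ih y h3 h4).1 hy⟩
      rw [(b1_mem hT hW h3 h4).2]
      exact y.1.2.2
    · rintro ⟨a, ha, haS, hak⟩
      have he := nextW_some_of ha haS.1 haS.2
      obtain ⟨e1, e2, e3⟩ := st_eq hT ha.2.1
      refine ⟨((a.1, ⟨T.vel a, haS.2⟩), a.2.1 * Real.cos a.2.2), ⟨⟨hz, hz'⟩, ?_, he⟩, ?_⟩
      · intro hD
        have hD' : 0 < z.2 ∧ z.2 < T.lenW W z.1 ∧ ¬ ∃ a, T.Next (T.st z.1.1 z.1.2 z.2) a := hD
        exact hD'.2.2 ⟨a, ha⟩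
      · refine (ih _ e2 e3).2 ?_
        show T.st a.1 (T.vel a) (a.2.1 * Real.cos a.2.2) ∈ T.MExB S W k
        rw [e1]
        exact hak

/-- Mortality in the interval system. -/
theorem mem_E_iffB (hT : T.Straight) {S : Set (Fin n)} {W : Finset ℂ} (hW : T.Dirs W)
    (z : (Fin n × W) × ℝ) (hz : 0 < z.2) (hz' : z.2 < T.lenW W z.1) :
    z ∈ (sysB hT S hW).E ↔ T.st z.1.1 z.1.2 z.2 ∈ T.MortB S W := by
  constructor
  · intro h
    obtain ⟨k, hk⟩ := mem_iUnion.1 h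
    exact mem_iUnion.2 ⟨k, (b2_mem_Ex_iff hT hW k z hz hz').1 hk⟩
  · intro h
    obtain ⟨k, hk⟩ := mem_iUnion.1 h
    exact mem_iUnion.2 ⟨k, (b2_mem_Ex_iff hT hW k z hz hz').2 hk⟩

theorem b2_line (hT : T.Straight) {S : Set (Fin n)} {W : Finset ℂ} (hW : T.Dirs W)
    {i : Fin n} {w : ℂ} (hw : w ∈ W) (hp : 0 < T.nw i w) {r : ℝ} (hr : r ∈ Ioo 0 (T.len i)) :
    (((i, (⟨w, hw⟩ : W)), r * T.nw i w) : (Fin n × W) × ℝ) ∈ (sysB hT S hW).V ∧
    ((((i, (⟨w, hw⟩ : W)), r * T.nw i w) : (Fin n × W) × ℝ) ∈ (sysB hT S hW).E ↔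
      (i, r, Real.arcsin (ip w (T.dir i))) ∈ T.MortB S W) := by
  have h1 : 0 < r * T.nw i w := mul_pos hr.1 hp
  have h2 : r * T.nw i w < T.len i * T.nw i w := mul_lt_mul_of_pos_right hr.2 hp
  refine ⟨⟨h1, h2⟩, ?_⟩
  have h3 := mem_E_iffB (S := S) hT hW (((i, (⟨w, hw⟩ : W)), r * T.nw i w) : (Fin n × W) × ℝ) h1 h2
  have h4 : T.st i w (r * T.nw i w) = (i, r, Real.arcsin (ip w (T.dir i))) := by
    rw [st, mul_div_cancel_right₀ r hp.ne']
  rw [h3]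
  show T.st i w (r * T.nw i w) ∈ T.MortB S W ↔ _
  rw [h4]

theorem b2_countable (hT : T.Straight) {S : Set (Fin n)} {W : Finset ℂ} (hW : T.Dirs W)
    {i : Fin n} {w : ℂ} (hw : w ∈ W) (hp : 0 < T.nw i w)
    (hc : {x : ℝ | (((i, (⟨w, hw⟩ : W)), x) : (Fin n × W) × ℝ) ∈ (sysB hT S hW).V ∧
      (((i, (⟨w, hw⟩ : W)), x) : (Fin n × W) × ℝ) ∉ (sysB hT S hW).E}.Countable) :
    {r : ℝ | r ∈ Ioo 0 (T.len i) ∧
      (i, r, Real.arcsin (ip w (T.dir i))) ∉ T.MortB S W}.Countable := by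
  have hinj : Function.Injective fun r : ℝ => r * T.nw i w :=
    fun a b hab => mul_right_cancel₀ hp.ne' hab
  refine (hc.preimage hinj).mono ?_
  rintro r ⟨hr, hrM⟩
  have h := b2_line (S := S) hT hW hw hp hr
  exact ⟨h.1, fun hE => hrM (h.2.1 hE)⟩

/-- `IntSys.line_dichotomy`, `sysB_noConn`, `mem_E_iffB`, and `x = r * nw i w`. -/
theorem geo_dichotomyB (hT : T.Straight) (S : Set (Fin n)) {W : Finset ℂ} (hW : T.Dirs W)
    {i : Fin n} {w : ℂ} (hw : w ∈ W) (hp : 0 < T.nw i w) :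
    (∀ r ∈ Ioo 0 (T.len i), (i, r, Real.arcsin (ip w (T.dir i))) ∉ T.MortB S W) ∨
    {r : ℝ | r ∈ Ioo 0 (T.len i) ∧
      (i, r, Real.arcsin (ip w (T.dir i))) ∉ T.MortB S W}.Countable := by
  rcases (sysB hT S hW).line_dichotomy (sysB_noConn hT S hW) (i, (⟨w, hw⟩ : W)) with h | h
  · left
    intro r hr hM
    exact h (r * T.nw i w) ((b2_line hT hW hw hp hr).2.2 hM)
  · right
    exact b2_countable hT hW hw hp h

/-- `IntSys.source_mortal`. -/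
theorem geo_sourceB (hT : T.Straight) {S : Set (Fin n)} {W : Finset ℂ} (hW : T.Dirs W)
    {i : Fin n} (hi : i ∉ S) {w : ℂ} (hw : w ∈ W) (hp : 0 < T.nw i w) :
    {r : ℝ | r ∈ Ioo 0 (T.len i) ∧
      (i, r, Real.arcsin (ip w (T.dir i))) ∉ T.MortB S W}.Countable := by
  refine b2_countable hT hW hw hp ((sysB hT S hW).source_mortal (sysB_noConn hT S hW)
    (i, (⟨w, hw⟩ : W)) ?_)
  rintro z y ⟨⟨hz, hz'⟩, -, hN⟩ hy
  have hN' : T.nextW S W z = some y := hN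
  obtain ⟨h1, -⟩ := (nextW_some_iffB hT hW).1 hN'
  rw [hy] at h1
  exact hi h1

end Table

end

end Pool.Agent.MP2e716c
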