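import Pool.Agent.H.MP_2e716c_an.helper20.B2
import Pool.Agent.H.MP_2e716c_an.Geo5
import Pool.Agent.H.MP_2e716c_an.Geo6

/-! All lines are mortal (after `Geo6`). -/

open Set MeasureTheory Filter Topology

namespace Pool.Agent.MP2e716c

noncomputable section

namespace Table

variable {n : ℕ} [NeZero n] (T : Table n)

/-- Mortal region points in direction `w`. -/
def MortRB (S : Set (Fin n)) (W : Finset ℂ) (w : ℂ) : Set ℂ :=
  {x | x ∈ T.region ∧ ∃ a, T.Land w x a ∧ (T.InSW S W a → a ∈ T.MortB S W)}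

variable {T}

theorem b3_next_of_mort {S : Set (Fin n)} {W : Finset ℂ} {b : Fin n × ℝ × ℝ}
    (hb : b ∈ T.MortB S W) : ∃ a, T.Next b a := by
  obtain ⟨k, hk⟩ := mem_iUnion.1 hb
  cases k with
  | zero => obtain ⟨a, ha, -⟩ := hk; exact ⟨a, ha⟩
  | succ k => obtain ⟨a, ha, -⟩ := hk; exact ⟨a, ha⟩

/-- A region point with start `b` is mortal iff `b` is. -/
theorem mortRB_iff_start (hT : T.Straight) {S : Set (Fin n)} {W : Finset ℂ} {w x : ℂ}
    {b : Fin n × ℝ × ℝ}
    (hx : x ∈ T.region) (hb : T.Start w x b) : x ∈ T.MortRB S W w ↔ b ∈ T.MortB S W := by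
  constructor
  · rintro ⟨-, a, ha, hm⟩
    have hn := next_of_start_land hb ha
    by_cases haS : T.InSW S W a
    · exact (mortB_iff_of_next hn haS).2 (hm haS)
    · exact mortB_of_next_not hn haS
  · intro hm
    obtain ⟨a, ha⟩ := b3_next_of_mort hm
    refine ⟨hx, a, geo6_land_of_start hb ha, fun haS => (mortB_iff_of_next ha haS).1 hm⟩

/-- The velocity at a landing point. -/
theorem b3_land_vel (hT : T.Straight) {w x : ℂ} {a : Fin n × ℝ × ℝ} (ha : T.Land w x a) :
    T.vel a = T.rfl' a.1 w := by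
  obtain ⟨hap, hinc, -⟩ := ha
  rw [vel_eq_rfl' hT, hinc]

/-- Local dichotomy: near every region point either no point is mortal or mortal points are
dense. -/
theorem near_dichotomyB (hT : T.Straight) (S : Set (Fin n)) {W : Finset ℂ} (hW : T.Dirs W)
    {w : ℂ} (hw : w ∈ W) {x : ℂ} (hx : x ∈ T.region) :
    ∃ ρ > 0, (∃ x' ∈ Metric.ball x ρ, x' ∈ T.MortRB S W w) →
      Metric.ball x ρ ⊆ closure (T.MortRB S W w) := by
  have hreg : ∀ᶠ x' in 𝓝 x, x' ∈ T.region := T.isOpen.mem_nhds hx
  rcases land_or_start hT (hW.unit w hw) (hW.noconn w hw) hx with ⟨a, ha⟩ | ⟨b, hb⟩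
  · have hst := land_stable hT (hW.unit w hw) hx ha
    obtain ⟨ρ, hρ, hball⟩ := Metric.eventually_nhds_iff_ball.1 (hst.and hreg)
    refine ⟨ρ, hρ, ?_⟩
    rintro ⟨x', hx', hm⟩
    by_cases haS : a.1 ∈ S ∧ T.rfl' a.1 w ∈ W
    · have hla := land_angle hT ha
      obtain ⟨hm1, a', ha', hm2⟩ := hm
      have hL := (hball x' hx').1
      -- landing points are unique
      have huniq : a' = (a.1, a.2.1 + ip (x' - x) (Complex.I * w) / Real.cos a.2.2, a.2.2) := by
        obtain ⟨hap, hinc, τ, hτ, hin, hpa⟩ := id ha'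
        obtain ⟨hbp, hinc', σ, hσ, hin', hpb⟩ := id hL
        have hτσ : τ = σ := by
          rcases lt_trichotomy τ σ with h | h | h
          · exact absurd (hpa ▸ hin' τ ⟨hτ.le, h⟩) (T.pt_not_mem hap)
          · exact h
          · exact absurd (hpb ▸ hin σ ⟨hσ.le, h⟩) (T.pt_not_mem hbp)
        subst hτσ
        obtain ⟨h1, h2⟩ := T.pt_inj hap hbp (hpa.trans hpb.symm)
        have h3 : T.inc a' = T.inc (a.1, a.2.1 + ip (x' - x) (Complex.I * w) / Real.cos a.2.2, a.2.2) :=
          hinc.trans hinc'.symm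
        have h4 : T.vel a' = T.vel (a.1, a.2.1 + ip (x' - x) (Complex.I * w) / Real.cos a.2.2, a.2.2) := by
          rw [vel_eq_rfl' hT, h3, h1, ← vel_eq_rfl' hT]
        have e1 := T.ip_vel_tang hap
        have e2 := T.ip_vel_tang hbp
        rw [tang, straight_deriv hT] at e1 e2
        have h5 : a'.2.2 = a.2.2 := by
          apply angle_inj hap.2 hbp.2
          rw [← e1, ← e2, h4, h1]
        exact Prod.ext h1 (Prod.ext h2 h5)
      rcases geo_dichotomyB hT S hW haS.2 hla.2 with h | h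
      · exfalso
        have hph := ha'.1
        have hvel' := b3_land_vel hT ha'
        rw [huniq] at hph hvel'
        have h1 := h _ hph.1
        rw [← hla.1] at h1
        apply h1
        have h2 := hm2 (by
          rw [huniq]
          refine ⟨haS.1, ?_⟩
          rw [hvel']
          exact haS.2)
        rw [huniq] at h2
        exact h2
      · intro y hy
        rw [mem_closure_iff_nhds]
        intro V hV
        obtain ⟨U, hUV, hUo, hyU⟩ := mem_nhds_iff.1 (inter_mem hV (Metric.isOpen_ball.mem_nhds hy))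
        obtain ⟨x'', hx'', hav⟩ := exists_near_avoid (hW.unit w hw) x a.2.1
          (T.cos_pos ha.1).ne' h hUo ⟨y, hyU⟩
        have hx3 := hUV hx''
        obtain ⟨hL2, hreg2⟩ := hball x'' hx3.2
        refine ⟨x'', hx3.1, hreg2, _, hL2, fun _ => ?_⟩
        by_contra hnm
        apply hav
        refine ⟨hL2.1.1, ?_⟩
        rw [← hla.1]
        exact hnm
    · intro y hy
      obtain ⟨hL, hyr⟩ := hball y hy
      refine subset_closure ⟨hyr, _, hL, fun h => absurd ⟨h.1, ?_⟩ haS⟩
      have h2 := h.2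
      rw [b3_land_vel hT hL] at h2
      exact h2
  · have hst := start_stable hT (hW.unit w hw) hx hb
    obtain ⟨ρ, hρ, hball⟩ := Metric.eventually_nhds_iff_ball.1 (hst.and hreg)
    refine ⟨ρ, hρ, ?_⟩
    rintro ⟨x', hx', hm⟩
    have hsa := start_angle hT hb
    rcases geo_dichotomyB hT S hW hw hsa.2 with h | h
    · exfalso
      obtain ⟨hS1, hr1⟩ := hball x' hx'
      have h1 := (mortRB_iff_start hT hr1 hS1).1 hm
      have h2 := h _ hS1.1.1
      rw [← hsa.1] at h2
      exact h2 h1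
    · intro y hy
      rw [mem_closure_iff_nhds]
      intro V hV
      obtain ⟨U, hUV, hUo, hyU⟩ := mem_nhds_iff.1 (inter_mem hV (Metric.isOpen_ball.mem_nhds hy))
      obtain ⟨x'', hx'', hav⟩ := exists_near_avoid (hW.unit w hw) x b.2.1
        (κ := -Real.cos b.2.2) (neg_ne_zero.2 (T.cos_pos hb.1).ne') h hUo ⟨y, hyU⟩
      have hx3 := hUV hx''
      obtain ⟨hS2, hreg2⟩ := hball x'' hx3.2
      refine ⟨x'', hx3.1, (mortRB_iff_start hT hreg2 hS2).2 ?_⟩
      by_contra hnm
      apply hav
      have e : b.2.1 + ip (x'' - x) (Complex.I * w) / -Real.cos b.2.2 =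
          b.2.1 - ip (x'' - x) (Complex.I * w) / Real.cos b.2.2 := by
        rw [div_neg]; ring
      rw [e]
      refine ⟨hS2.1.1, ?_⟩
      rw [← hsa.1]
      exact hnm

/-- There is a mortal region point. -/
theorem mortRB_nonempty (hT : T.Straight) {S : Set (Fin n)} {W : Finset ℂ} (hW : T.Dirs W)
    {e : Fin n} (he : e ∉ S) {w : ℂ} (hw : w ∈ W) : (T.MortRB S W w).Nonempty := by
  rcases lt_or_gt_of_ne (nw_ne_zero hT (hW.unit w hw) (hW.noconn w hw) e) with h | h
  · obtain ⟨x, hx, a, ha, hae⟩ := exists_land hT (hW.unit w hw) h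
    exact ⟨x, hx, a, ha, fun haS => absurd (hae ▸ haS.1) he⟩
  · have hc := geo_sourceB hT hW he hw h
    have hex : ∃ r ∈ Ioo 0 (T.len e), (e, r, Real.arcsin (ip w (T.dir e))) ∈ T.MortB S W := by
      by_contra hcon
      push Not at hcon
      apply geo6_not_countable_Ioo (T.len_pos e)
      refine hc.mono ?_
      intro r hr
      exact ⟨hr, hcon r hr⟩
    obtain ⟨r, hr, hm⟩ := hex
    obtain ⟨a, ha⟩ := b3_next_of_mort hm
    have hnw : 0 < ip w (Complex.I * deriv (T.γ e) r) := by
      rw [straight_deriv hT]; exact h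
    obtain ⟨hph, hvel⟩ := T.vel_arcsin e hr (hW.unit w hw) hnw
    rw [straight_deriv hT] at hph hvel
    have hpos : 0 < ‖T.pt a - T.pt (e, r, Real.arcsin (ip w (T.dir e)))‖ := by
      obtain ⟨-, hap, σ, hσ, hin', hpa, hva⟩ := ha
      rw [hpa, add_sub_cancel_left, norm_mul, T.vel_norm hph, mul_one, Complex.norm_real,
        Real.norm_eq_abs, abs_of_pos hσ]
      exact hσ
    obtain ⟨h1, h2, -⟩ := T.chord_point ha (half_pos hpos) (half_lt_self hpos)
    rw [hvel] at h1 h2
    exact ⟨_, (mortRB_iff_start hT h1 h2).2 hm⟩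

/-- `closure (MortRB) ∩ region` is open (`near_dichotomyB`) and closed in the connected region. -/
theorem mortRB_dense (hT : T.Straight) {S : Set (Fin n)} {W : Finset ℂ} (hW : T.Dirs W)
    {e : Fin n} (he : e ∉ S) {w : ℂ} (hw : w ∈ W) : T.region ⊆ closure (T.MortRB S W w) := by
  have key : ∀ x ∈ T.region, x ∈ closure (T.MortRB S W w) →
      x ∈ interior (closure (T.MortRB S W w)) := by
    intro x hx hxc
    obtain ⟨ρ, hρ, h⟩ := near_dichotomyB hT S hW hw hx
    obtain ⟨x', hx', hm⟩ := mem_closure_iff_nhds.1 hxc _ (Metric.ball_mem_nhds x hρ)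
    exact mem_interior.2 ⟨_, h ⟨x', hx', hm⟩, Metric.isOpen_ball, Metric.mem_ball_self hρ⟩
  have h1 : T.region ⊆ interior (closure (T.MortRB S W w)) := by
    apply T.connected.isPreconnected.subset_of_closure_inter_subset isOpen_interior
    · obtain ⟨x, hx⟩ := mortRB_nonempty hT hW he hw
      exact ⟨x, hx.1, key x hx.1 (subset_closure hx)⟩
    · rintro x ⟨hx, hxr⟩
      refine key x hxr ?_
      have : closure (interior (closure (T.MortRB S W w))) ⊆ closure (T.MortRB S W w) := by
        apply closure_minimal interior_subset isClosed_closure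
      exact this hx
  exact h1.trans interior_subset

/-- All lines are mortal up to countable sets. -/
theorem lines_mortalB (hT : T.Straight) {S : Set (Fin n)} {W : Finset ℂ} (hW : T.Dirs W)
    {e : Fin n} (he : e ∉ S) {w : ℂ} (hw : w ∈ W) {i : Fin n} (hp : 0 < T.nw i w) :
    {r : ℝ | r ∈ Ioo 0 (T.len i) ∧
      (i, r, Real.arcsin (ip w (T.dir i))) ∉ T.MortB S W}.Countable := by
  rcases geo_dichotomyB hT S hW hw hp with h | h
  · exfalso
    have hfin := finite_singular hT (hW.unit w hw) (hW.noconn w hw) hp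
    have hlen : 0 < T.len i * T.nw i w := mul_pos (T.len_pos i) hp
    have hex : ∃ x, 0 < x ∧ x < T.len i * T.nw i w ∧ ∃ a, T.Next (T.st i w x) a := by
      by_contra hcon
      push Not at hcon
      apply geo6_not_countable_Ioo hlen
      refine hfin.countable.mono ?_
      intro x hx
      refine ⟨hx.1, hx.2, ?_⟩
      rintro ⟨a, ha⟩
      exact hcon x hx.1 hx.2 a ha
    obtain ⟨x, hx0, hx1, a, ha⟩ := hex
    obtain ⟨hph, hvel⟩ := st_mem hT (hW.unit w hw) hp hx0 hx1
    have hpos : 0 < ‖T.pt a - T.pt (T.st i w x)‖ := by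
      obtain ⟨-, hap, σ, hσ, hin', hpa, hva⟩ := ha
      rw [hpa, add_sub_cancel_left, norm_mul, T.vel_norm hph, mul_one, Complex.norm_real,
        Real.norm_eq_abs, abs_of_pos hσ]
      exact hσ
    obtain ⟨h1, h2, -⟩ := T.chord_point ha (half_pos hpos) (half_lt_self hpos)
    rw [hvel] at h1 h2
    have hst := start_stable hT (hW.unit w hw) h1 h2
    have hreg := T.isOpen.mem_nhds h1
    have hcl := mortRB_dense hT hW he hw h1
    obtain ⟨x', ⟨hx', hx'r⟩, hm⟩ := mem_closure_iff_nhds.1 hcl _ (inter_mem hst hreg)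
    have hm' := (mortRB_iff_start hT hx'r hx').1 hm
    exact h _ hx'.1.1 hm'
  · exact h

end Table

end

end Pool.Agent.MP2e716c
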