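import Pool.Agent.H.MP_2e716c_an.helper20.B3
import Pool.Agent.H.MP_2e716c_an.Geo8

/-! Trapped orbits with finitely many directions form a null set. -/

open Set MeasureTheory Filter Topology

namespace Pool.Agent.MP2e716c

noncomputable section

namespace Table

variable {n : ℕ} [NeZero n] (T : Table n)

/-- Composition of the linear reflections in the sides of a list. -/
def rflL (L : List (Fin n)) (w : ℂ) : ℂ := L.foldr (fun i y => T.rfl' i y) w

variable {T}

theorem rflL_inj (L : List (Fin n)) : Function.Injective (T.rflL L) := by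
  induction L with
  | nil => intro x y h; exact h
  | cons i L ih =>
    intro x y h
    have h1 : T.rfl' i (T.rflL L x) = T.rfl' i (T.rflL L y) := h
    have h2 := congrArg (T.rfl' i) h1
    rw [rfl'_rfl', rfl'_rfl'] at h2
    exact ih h2

theorem rfl'_norm (i : Fin n) (w : ℂ) : ‖T.rfl' i w‖ = ‖w‖ := by
  rw [rfl', norm_mul, norm_pow, dir_norm, one_pow, one_mul, RCLike.norm_conj]

theorem rflL_norm (L : List (Fin n)) (w : ℂ) : ‖T.rflL L w‖ = ‖w‖ := by
  induction L with
  | nil => rfl
  | cons i L ih =>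
    show ‖T.rfl' i (T.rflL L w)‖ = ‖w‖
    rw [rfl'_norm, ih]

variable (T)

/-- Directions with a reflected image which is a connection direction. -/
def badDir : Set ℂ := ⋃ L : List (Fin n), (T.rflL L) ⁻¹' T.conn

theorem badDir_countable : T.badDir.Countable :=
  countable_iUnion fun L => T.conn_countable.preimage (rflL_inj L)

variable {T}

open Classical in
theorem dirs_image {v : ℂ} (hv : ‖v‖ = 1) (hb : v ∉ T.badDir) (F : Finset (List (Fin n))) :
    T.Dirs (F.image fun L => T.rflL L v) where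
  unit := by
    intro w hw
    obtain ⟨L, -, rfl⟩ := Finset.mem_image.1 hw
    rw [rflL_norm, hv]
  noconn := by
    intro w hw hc
    obtain ⟨L, -, rfl⟩ := Finset.mem_image.1 hw
    exact hb (mem_iUnion.2 ⟨L, hc⟩)

end Table

namespace SemiDisp

variable {n : ℕ} [NeZero n] (T : SemiDisp n)

/-- Points of `AS S` all of whose velocities are in `W` are not mortal for the polygon. -/
theorem not_mortB_of_AS {S : Set (Fin n)} (hS : Disjoint S T.disp) {W : Finset ℂ}
    {z : Fin n × ℝ × ℝ} (hz : z ∈ T.Y.AS S) (hv : ∀ k : ℕ, T.Y.vel (T.Y.bmap^[k] z) ∈ W) :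
    z ∉ T.P.MortB S W := by
  have hnd : ∀ i ∈ S, i ∉ T.disp := fun i hi => Set.disjoint_left.1 hS hi
  have key : ∀ k : ℕ, ∀ z ∈ T.Y.AS S, (∀ k : ℕ, T.Y.vel (T.Y.bmap^[k] z) ∈ W) →
      z ∉ T.P.MExB S W k := by
    intro k
    induction k with
    | zero =>
      rintro z hz hv ⟨a, ha, haS⟩
      have h0 := hz 0
      have h1 := hz 1
      have hv1 := hv 1
      simp only [Function.iterate_zero, id, zero_add, Function.iterate_one] at h0 h1 hv1
      have h2 := T.next_P h0.1 (hnd _ h0.2.1) (hnd _ h1.2.1)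
      rw [T.P.next_unique ha h2] at haS
      apply haS
      refine ⟨h1.2.1, ?_⟩
      rw [T.geo8_vel (hnd _ h1.2.1)]
      exact hv1
    | succ k ih =>
      rintro z hz hv ⟨a, ha, haS, hak⟩
      have h0 := hz 0
      have h1 := hz 1
      simp only [Function.iterate_zero, id, zero_add, Function.iterate_one] at h0 h1
      have h2 := T.next_P h0.1 (hnd _ h0.2.1) (hnd _ h1.2.1)
      rw [T.P.next_unique ha h2] at hak
      have h3 := T.Y.AS_inv hz 1
      simp only [Function.iterate_one] at h3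
      refine ih _ h3 ?_ hak
      intro m
      have h4 := hv (m + 1)
      rw [Function.iterate_succ_apply] at h4
      exact h4
  intro h
  obtain ⟨k, hk⟩ := mem_iUnion.1 h
  exact key k z hz hv hk

/-- The velocities of an orbit in `AS S` are reflected images of the first one. -/
theorem vel_rflL {S : Set (Fin n)} (hS : Disjoint S T.disp)
    {z : Fin n × ℝ × ℝ} (hz : z ∈ T.Y.AS S) (k : ℕ) :
    ∃ L : List (Fin n), T.Y.vel (T.Y.bmap^[k] z) = T.P.rflL L (T.Y.vel z) := by
  have hnd : ∀ i ∈ S, i ∉ T.disp := fun i hi => Set.disjoint_left.1 hS hi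
  induction k with
  | zero => exact ⟨[], rfl⟩
  | succ k ih =>
    obtain ⟨L, hL⟩ := ih
    have h0 := hz k
    have h1 := hz (k + 1)
    obtain ⟨-, -, τ, -, -, -, hinc⟩ := id h0.1
    refine ⟨(T.Y.bmap^[k + 1] z).1 :: L, ?_⟩
    show _ = T.P.rfl' _ (T.P.rflL L (T.Y.vel z))
    rw [← hL, ← hinc, ← T.geo8_vel (hnd _ h1.2.1), ← T.geo8_inc (hnd _ h1.2.1)]
    exact Table.vel_eq_rfl' T.straight _

/-- If every orbit in `AS S` takes finitely many directions, then `AS S` is a null set. -/
theorem AS_null_of_finite {S : Set (Fin n)} (hS : Disjoint S T.disp)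
    (hfin : ∀ z ∈ T.Y.AS S, (Set.range fun k : ℕ => T.Y.vel (T.Y.bmap^[k] z)).Finite) :
    T.Y.μ (T.Y.AS S) = 0 := by
  classical
  have hnd : ∀ i ∈ S, i ∉ T.disp := fun i hi => Set.disjoint_left.1 hS hi
  obtain ⟨e, he⟩ := T.disp_nonempty
  have heS : e ∉ S := fun h => hnd e h he
  rw [measure_eq_zero_iff_ae_notMem, Table.ae_mu_iff]
  intro i
  by_cases hi : i ∈ S
  swap
  · exact ae_of_all _ fun x _ hx => hi (hx 0).2.1
  -- the measurable set
  set E : Set (ℝ × ℝ) := {x | (i, x) ∈ T.Y.AS S ∧ (i, x) ∈ T.Y.phase} with hE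
  have hEm : MeasurableSet E := by
    have h1 : Measurable (fun x : ℝ × ℝ => (i, x)) := measurable_prodMk_left
    exact (h1 (T.Y.measurableSet_AS S)).inter (h1 T.Y.measurableSet_phase)
  have hE0 : (volume : Measure (ℝ × ℝ)) E = 0 := by
    have h1 : (volume : Measure (ℝ × ℝ)) (Prod.swap ⁻¹' E) = volume E :=
      (Measure.measurePreserving_swap (μ := (volume : Measure ℝ)) (ν := (volume : Measure ℝ))).measure_preimage
        hEm.nullMeasurableSet
    rw [← h1]
    have h2 : MeasurableSet (Prod.swap ⁻¹' E : Set (ℝ × ℝ)) := measurable_swap hEm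
    rw [Measure.volume_eq_prod, Measure.measure_prod_null h2]
    -- bad angles
    set u := T.P.dir i with hu
    have hu1 : ‖u‖ = 1 := Table.dir_norm i
    set w : ℝ → ℂ := fun θ => (Real.cos θ : ℂ) * (Complex.I * u) + (Real.sin θ : ℂ) * u with hw
    have hwu : ∀ θ, ip (w θ) u = Real.sin θ := by
      intro θ
      simp only [hw, ip_add_left, ip_rmul_left, ip_self_I, ip_self, hu1]; ring
    have hwn : ∀ θ, ip (w θ) (Complex.I * u) = Real.cos θ := by
      intro θ
      simp only [hw, ip_add_left, ip_rmul_left, ip_I_self, ip_self, norm_mul, Complex.norm_I, hu1]; ring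
    have hw1 : ∀ θ, ‖w θ‖ = 1 := by
      intro θ
      have h3 := norm_sq_decomp (w θ) u hu1
      rw [hwu, hwn, Real.sin_sq_add_cos_sq] at h3
      nlinarith [norm_nonneg (w θ)]
    have hvel : ∀ r θ, T.Y.vel (i, r, θ) = w θ := by
      intro r θ
      rw [← T.geo8_vel (z := (i, r, θ)) (hnd i hi)]
      have h4 : T.P.tang (i, r, θ) = u := Table.straight_deriv T.straight i r
      simp only [Table.vel, Table.nor, h4, hw]
    have hbad : {θ : ℝ | θ ∈ Ioo (-(Real.pi / 2)) (Real.pi / 2) ∧ w θ ∈ T.P.badDir}.Countable := by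
      refine Set.MapsTo.countable_of_injOn (f := w) (t := T.P.badDir) (fun θ hθ => hθ.2) ?_
        T.P.badDir_countable
      intro θ hθ θ' hθ' h
      apply Table.angle_inj hθ.1 hθ'.1
      rw [← hwu, ← hwu, h]
    have hae : ∀ᵐ θ : ℝ, θ ∉ {θ : ℝ | θ ∈ Ioo (-(Real.pi / 2)) (Real.pi / 2) ∧
        w θ ∈ T.P.badDir} := measure_eq_zero_iff_ae_notMem.1 (hbad.measure_zero _)
    filter_upwards [hae] with θ hθ
    show volume (Prod.mk θ ⁻¹' (Prod.swap ⁻¹' E)) = 0
    by_cases hθr : θ ∈ Ioo (-(Real.pi / 2)) (Real.pi / 2)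
    swap
    · have : (Prod.mk θ ⁻¹' (Prod.swap ⁻¹' E) : Set ℝ) = ∅ := by
        ext r
        simp only [mem_preimage, Prod.swap_prod_mk, hE, mem_ofPred_eq, mem_empty_iff_false,
          iff_false]
        intro h
        exact hθr h.2.2
      rw [this]; simp
    have hwC : w θ ∉ T.P.badDir := fun h => hθ ⟨hθr, h⟩
    have hnw : 0 < T.P.nw i (w θ) := by
      rw [Table.nw, hwn]; exact Real.cos_pos_of_mem_Ioo hθr
    have harc : Real.arcsin (ip (w θ) (T.P.dir i)) = θ := by
      rw [hwu]; exact Real.arcsin_sin hθr.1.le hθr.2.le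
    -- countable union over the finite sets of lists
    have hcount : (⋃ F : Finset (List (Fin n)), {r : ℝ | w θ ∈ (F.image fun L => T.P.rflL L (w θ)) ∧
        r ∈ Ioo 0 (T.P.len i) ∧ (i, r, θ) ∉
          T.P.MortB S (F.image fun L => T.P.rflL L (w θ))}).Countable := by
      refine countable_iUnion fun F => ?_
      by_cases hF : w θ ∈ (F.image fun L => T.P.rflL L (w θ))
      · have h5 := Table.lines_mortalB (S := S) T.straight (Table.dirs_image (hw1 θ) hwC F) heS hF hnw
        rw [harc] at h5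
        exact h5.mono fun r hr => hr.2
      · refine Set.Countable.mono ?_ Set.countable_empty
        rintro r ⟨hr, -⟩
        exact absurd hr hF
    refine measure_mono_null ?_ (hcount.measure_zero _)
    intro r hr
    simp only [mem_preimage, Prod.swap_prod_mk, hE, mem_ofPred_eq] at hr
    obtain ⟨hrA, hrp⟩ := hr
    have hf := hfin _ hrA
    have hL : ∀ k : ℕ, ∃ L : List (Fin n),
        T.P.rflL L (w θ) = T.Y.vel (T.Y.bmap^[k] (i, r, θ)) := by
      intro k
      obtain ⟨L, hL⟩ := T.vel_rflL hS hrA k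
      rw [hvel] at hL
      exact ⟨L, hL.symm⟩
    have hL' : ∀ u ∈ hf.toFinset, ∃ L : List (Fin n), T.P.rflL L (w θ) = u := by
      intro u hu
      obtain ⟨k, hk⟩ := (Set.Finite.mem_toFinset hf).1 hu
      obtain ⟨L, hL⟩ := hL k
      exact ⟨L, hL.trans hk⟩
    choose! Lf hLf using hL'
    have hall : ∀ k : ℕ, T.Y.vel (T.Y.bmap^[k] (i, r, θ)) ∈
        ((hf.toFinset.image Lf).image fun L => T.P.rflL L (w θ)) := by
      intro k
      have hk : T.Y.vel (T.Y.bmap^[k] (i, r, θ)) ∈ hf.toFinset :=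
        (Set.Finite.mem_toFinset hf).2 ⟨k, rfl⟩
      rw [Finset.mem_image]
      exact ⟨Lf (T.Y.vel (T.Y.bmap^[k] (i, r, θ))), Finset.mem_image_of_mem _ hk, hLf _ hk⟩
    refine mem_iUnion.2 ⟨hf.toFinset.image Lf, ?_, ?_, T.not_mortB_of_AS hS hrA hall⟩
    · have h0 := hall 0
      simp only [Function.iterate_zero, id] at h0
      rw [hvel] at h0
      exact h0
    · rw [← (T.neutral _ (hnd i hi)).1]
      exact hrp.1
  have := measure_eq_zero_iff_ae_notMem.1 hE0
  filter_upwards [this] with x hx hph has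
  exact hx ⟨has, hph⟩

end SemiDisp

end

end Pool.Agent.MP2e716c
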