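import Pool.Agent.H.MP_2e716c_an.helper20.BDefs
import Pool.Agent.H.MP_2e716c_an.NonAdj2

/-! Exposed sides are not hit at small angles by trapped orbits. -/

open Set MeasureTheory Filter Topology

namespace Pool.Agent.MP2e716c

noncomputable section

namespace Table

variable {n : ℕ} [NeZero n] {T : Table n}

/-- Two arcs only meet at end points. -/
theorem b5_meet {i j : Fin n} (hij : j ≠ i) {x s : ℝ} (hx : x ∈ Icc 0 (T.len i))
    (hs : s ∈ Icc 0 (T.len j)) (h : T.γ j s = T.γ i x) : x = 0 ∨ x = T.len i := by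
  rcases hx.2.lt_or_eq with hx' | hx'
  · rcases hs.2.lt_or_eq with hs' | hs'
    · exact absurd (T.inj j i s x ⟨hs.1, hs'⟩ ⟨hx.1, hx'⟩ h).1 hij
    · rw [hs', T.closed j] at h
      exact Or.inl (T.inj (j + 1) i 0 x ⟨le_refl _, T.len_pos _⟩ ⟨hx.1, hx'⟩ h).2.symm
  · exact Or.inr hx'

/-- The compactness argument, for one side `j ≠ i`: chords from side `i` to side `j` which start
nearly parallel to side `i` in direction `d`. -/
theorem graze_one {i j : Fin n} {f d : ℂ} (hd : ‖d‖ = 1)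
    (hpar : ∀ r ∈ Icc 0 (T.len i), ∃ ρ ∈ Icc 0 (T.len i), T.γ i r = f + ρ * d)
    (hpar' : ∀ ρ ∈ Icc 0 (T.len i), ∃ x ∈ Icc 0 (T.len i), T.γ i x = f + ρ * d ∧
      (x = 0 ∨ x = T.len i → ρ = 0 ∨ ρ = T.len i))
    {N : ℂ} (hN : ∀ v : ℂ, ‖v‖ = 1 → ip v N = 0 → 0 ≤ ip v d → v = d) (hNd : ip d N = 0)
    (hN1 : ‖N‖ = 1)
    {p u : ℂ} (hj : ∀ r : ℝ, T.γ j r = p + r * u) (hji : j ≠ i)
    (hclear : ∀ t : ℝ, 0 ≤ t → (∀ s ∈ Icc 0 t, f + T.len i * d + s * d ∈ closure T.region) →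
      f + T.len i * d + t * d ∉ T.γ j '' Icc 0 (T.len j)) :
    ∃ η > 0, ∀ r ∈ Icc 0 (T.len i), ∀ v : ℂ, ‖v‖ = 1 → 0 < ip v N → 0 < ip v d →
      ∀ s ∈ Icc 0 (T.len j), ∀ τ : ℝ, 0 < τ → (∀ t ∈ Ioo 0 τ, T.γ i r + t * v ∈ T.region) →
        T.γ j s = T.γ i r + τ * v → η ≤ ip v N := by
  by_contra hcon
  push Not at hcon
  have hcon' : ∀ k : ℕ, ∃ y : ℝ × ℂ × ℝ × ℝ, y.1 ∈ Icc 0 (T.len i) ∧ ‖y.2.1‖ = 1 ∧
      0 < ip y.2.1 N ∧ 0 < ip y.2.1 d ∧ y.2.2.1 ∈ Icc 0 (T.len j) ∧ 0 < y.2.2.2 ∧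
      (∀ t ∈ Ioo 0 y.2.2.2, T.γ i y.1 + t * y.2.1 ∈ T.region) ∧
      T.γ j y.2.2.1 = T.γ i y.1 + y.2.2.2 * y.2.1 ∧ ip y.2.1 N < 1 / ((k : ℝ) + 1) := by
    intro k
    obtain ⟨r, hr, v, hv, h1, h2, s, hs, τ, hτ, h3, h4, h5⟩ := hcon (1 / ((k : ℝ) + 1)) (by positivity)
    exact ⟨(r, v, s, τ), hr, hv, h1, h2, hs, hτ, h3, h4, h5⟩
  choose y hy using hcon'
  -- bound for the length
  obtain ⟨D, hD⟩ := Metric.isBounded_iff.1 T.bounded.closure
  have hcl : ∀ (k : Fin n) (r : ℝ), r ∈ Icc 0 (T.len k) → T.γ k r ∈ closure T.region := by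
    intro k r hr
    exact frontier_subset_closure (T.arc_mem_frontier k hr)
  have hK : IsCompact (Icc (0 : ℝ) (T.len i) ×ˢ (Metric.sphere (0 : ℂ) 1 ×ˢ
      (Icc (0 : ℝ) (T.len j) ×ˢ Icc (0 : ℝ) D))) :=
    isCompact_Icc.prod ((isCompact_sphere _ _).prod (isCompact_Icc.prod isCompact_Icc))
  have hyK : ∀ k, y k ∈ Icc (0 : ℝ) (T.len i) ×ˢ (Metric.sphere (0 : ℂ) 1 ×ˢ
      (Icc (0 : ℝ) (T.len j) ×ˢ Icc (0 : ℝ) D)) := by
    intro k
    obtain ⟨h1, h2, h3, h4, h5, h6, h7, h8, h9⟩ := hy k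
    refine ⟨h1, by simpa using h2, h5, h6.le, ?_⟩
    have h10 := hD (hcl j _ h5) (hcl i _ h1)
    rw [dist_eq_norm, h8, add_sub_cancel_left, norm_mul, h2, mul_one, Complex.norm_real,
      Real.norm_of_nonneg h6.le] at h10
    exact h10
  obtain ⟨⟨r, v, s, τ⟩, ha, φ, hφ, hlim⟩ := hK.tendsto_subseq hyK
  obtain ⟨hr, hv, hs, hτ⟩ := ha
  simp only at hr hv hs hτ
  have l1 : Tendsto (fun k => (y (φ k)).1) atTop (𝓝 r) := (continuous_fst.tendsto _).comp hlim
  have l2 : Tendsto (fun k => (y (φ k)).2.1) atTop (𝓝 v) :=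
    ((continuous_fst.comp continuous_snd).tendsto _).comp hlim
  have l3 : Tendsto (fun k => (y (φ k)).2.2.1) atTop (𝓝 s) :=
    ((continuous_fst.comp (continuous_snd.comp continuous_snd)).tendsto _).comp hlim
  have l4 : Tendsto (fun k => (y (φ k)).2.2.2) atTop (𝓝 τ) :=
    ((continuous_snd.comp (continuous_snd.comp continuous_snd)).tendsto _).comp hlim
  have hv1 : ‖v‖ = 1 := by simpa using hv
  have ipc : ∀ w : ℂ, Continuous fun x : ℂ => ip x w := fun w =>
    ip_continuous.comp (continuous_id.prodMk continuous_const)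
  have lN : Tendsto (fun k => ip (y (φ k)).2.1 N) atTop (𝓝 (ip v N)) :=
    ((ipc N).tendsto _).comp l2
  have ld : Tendsto (fun k => ip (y (φ k)).2.1 d) atTop (𝓝 (ip v d)) :=
    ((ipc d).tendsto _).comp l2
  have lN0 : Tendsto (fun k => ip (y (φ k)).2.1 N) atTop (𝓝 0) := by
    have hz : Tendsto (fun k : ℕ => 1 / (((φ k : ℕ) : ℝ) + 1)) atTop (𝓝 0) :=
      tendsto_one_div_add_atTop_nhds_zero_nat.comp hφ.tendsto_atTop
    exact squeeze_zero (fun k => (hy (φ k)).2.2.1.le)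
      (fun k => (hy (φ k)).2.2.2.2.2.2.2.2.le) hz
  have hvN : ip v N = 0 := tendsto_nhds_unique lN lN0
  have hvd0 : 0 ≤ ip v d := ge_of_tendsto' ld fun k => (hy (φ k)).2.2.2.1.le
  have hvd : v = d := hN v hv1 hvN hvd0
  subst hvd
  have hγc : ∀ k : Fin n, Continuous (T.γ k) := fun k => (T.smooth k).continuous
  -- limit equation
  have heq : T.γ j s = T.γ i r + τ * v := by
    have e1 : Tendsto (fun k => T.γ j (y (φ k)).2.2.1) atTop (𝓝 (T.γ j s)) :=
      ((hγc j).tendsto _).comp l3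
    have e2 : Tendsto (fun k => T.γ i (y (φ k)).1 + ((y (φ k)).2.2.2 : ℂ) * (y (φ k)).2.1) atTop
        (𝓝 (T.γ i r + τ * v)) :=
      (((hγc i).tendsto _).comp l1).add
        (((Complex.continuous_ofReal.tendsto _).comp l4).mul l2)
    refine tendsto_nhds_unique e1 (e2.congr fun k => ?_)
    exact (hy (φ k)).2.2.2.2.2.2.2.1.symm
  -- the limit chord is in the closed region
  have hchord : ∀ t ∈ Icc 0 τ, T.γ i r + t * v ∈ closure T.region := by
    intro t ht
    rcases ht.2.lt_or_eq with ht' | ht'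
    · rcases ht.1.lt_or_eq with ht0 | ht0
      · have e2 : Tendsto (fun k => T.γ i (y (φ k)).1 + (t : ℂ) * (y (φ k)).2.1) atTop
            (𝓝 (T.γ i r + t * v)) :=
          (((hγc i).tendsto _).comp l1).add (l2.const_mul _)
        refine mem_closure_of_tendsto e2 ?_
        filter_upwards [l4.eventually (lt_mem_nhds ht')] with k hk
        exact (hy (φ k)).2.2.2.2.2.2.1 t ⟨ht0, hk⟩
      · rw [← ht0]
        simpa using hcl i r hr
    · rw [ht', ← heq]
      exact hcl j s hs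
  obtain ⟨ρ, hρ, hfρ⟩ := hpar r hr
  by_cases hcase : T.len i ≤ ρ + τ
  · refine hclear (ρ + τ - T.len i) (by linarith) ?_ ⟨s, hs, ?_⟩
    · intro s' hs'
      have h1 := hchord (T.len i + s' - ρ) ⟨by linarith [hρ.2, hs'.1], by linarith [hs'.2]⟩
      rw [hfρ] at h1
      convert h1 using 1
      push_cast
      ring
    · rw [heq, hfρ]
      push_cast
      ring
  · push Not at hcase
    have hρτ : ρ + τ ∈ Icc 0 (T.len i) := ⟨by linarith [hρ.1, hτ.1], hcase.le⟩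
    obtain ⟨x, hx, hxe, hxi⟩ := hpar' (ρ + τ) hρτ
    have h2 : T.γ j s = T.γ i x := by
      rw [heq, hfρ, hxe]
      push_cast
      ring
    have h3 : ρ + τ = 0 := by
      rcases hxi (b5_meet hji hx hs h2) with h | h
      · exact h
      · linarith
    have hρ0 : ρ = 0 := by linarith [hρ.1, hτ.1]
    have hτ0 : τ = 0 := by linarith [hρ.1, hτ.1]
    have hf : T.γ j s = f := by
      rw [heq, hfρ, hρ0, hτ0]
      simp
    -- the corner case
    have key : ∀ k, |ip u N| * ip (y (φ k)).2.1 v ≤ ip (y (φ k)).2.1 N := by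
      intro k
      obtain ⟨g1, g2, g3, g4, g5, g6, g7, g8, g9⟩ := hy (φ k)
      obtain ⟨ρ', hρ', hfρ'⟩ := hpar _ g1
      set w := (y (φ k)).2.1 with hw
      set σ := (y (φ k)).2.2.2 with hσ
      have e1 : (((y (φ k)).2.2.1 - s : ℝ) : ℂ) * u = (ρ' : ℂ) * v + (σ : ℂ) * w := by
        have h4 := hj (y (φ k)).2.2.1
        have h5 := hj s
        rw [g8, hfρ'] at h4
        rw [hf] at h5
        push_cast
        linear_combination h5 - h4
      have e2 : ((y (φ k)).2.2.1 - s) * ip u N = σ * ip w N := by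
        rw [← ip_rmul_left, e1, ip_add_left, ip_rmul_left, ip_rmul_left, hNd]
        ring
      have e3 : ((y (φ k)).2.2.1 - s) * ip u v = ρ' + σ * ip w v := by
        rw [← ip_rmul_left, e1, ip_add_left, ip_rmul_left, ip_rmul_left, ip_self, hd]
        ring
      set x' := (y (φ k)).2.2.1 - s with hx'
      have hu : ‖u‖ = 1 := na_norm hj
      have e4 : |ip u v| ≤ 1 := by
        have := abs_ip_le u v
        rwa [hu, hd, one_mul] at this
      have e5 : |ip u N| * (ρ' + σ * ip w v) = |ip u v| * (σ * ip w N) := by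
        have p1 : 0 < σ * ip w N := mul_pos g6 g3
        have p2 : 0 < ρ' + σ * ip w v := by
          have := mul_pos g6 g4
          linarith [hρ'.1]
        have q1 : |x'| * |ip u N| = σ * ip w N := by rw [← abs_mul, e2, abs_of_pos p1]
        have q2 : |x'| * |ip u v| = ρ' + σ * ip w v := by rw [← abs_mul, e3, abs_of_pos p2]
        rw [← q1, ← q2]
        ring
      have e6 : |ip u N| * (σ * ip w v) ≤ σ * ip w N := by
        have a1 : |ip u N| * (σ * ip w v) ≤ |ip u N| * (ρ' + σ * ip w v) :=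
          mul_le_mul_of_nonneg_left (by linarith [hρ'.1]) (abs_nonneg _)
        have a2 : |ip u v| * (σ * ip w N) ≤ 1 * (σ * ip w N) :=
          mul_le_mul_of_nonneg_right e4 (mul_pos g6 g3).le
        linarith
      have e7 : σ * (|ip u N| * ip w v) ≤ σ * ip w N := by linarith
      exact le_of_mul_le_mul_left e7 g6
    have h6 : |ip u N| * ip v v ≤ 0 := by
      refine le_of_tendsto_of_tendsto' (ld.const_mul _) lN0 key
    rw [ip_self, hd, one_pow, mul_one] at h6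
    have h7 : ip u N = 0 := abs_eq_zero.1 (le_antisymm h6 (abs_nonneg _))
    obtain ⟨g1, g2, g3, g4, g5, g6, g7, g8, g9⟩ := hy (φ 0)
    obtain ⟨ρ', hρ', hfρ'⟩ := hpar _ g1
    have e1 : (((y (φ 0)).2.2.1 - s : ℝ) : ℂ) * u = (ρ' : ℂ) * v +
        ((y (φ 0)).2.2.2 : ℂ) * (y (φ 0)).2.1 := by
      have h4 := hj (y (φ 0)).2.2.1
      have h5 := hj s
      rw [g8, hfρ'] at h4
      rw [hf] at h5
      push_cast
      linear_combination h5 - h4
    have e2 : ((y (φ 0)).2.2.1 - s) * ip u N = (y (φ 0)).2.2.2 * ip (y (φ 0)).2.1 N := by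
      rw [← ip_rmul_left, e1, ip_add_left, ip_rmul_left, ip_rmul_left, hNd]
      ring
    rw [h7, mul_zero] at e2
    have := mul_pos g6 g3
    linarith

end Table

end

end Pool.Agent.MP2e716c
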