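import Pool.Agent.H.MP_2e716c_an.helper20.B5

/-! Exposed sides are not hit at small angles by trapped orbits: conclusion. -/

open Set MeasureTheory Filter Topology

namespace Pool.Agent.MP2e716c

noncomputable section

namespace Table

variable {n : ℕ} [NeZero n] {T : Table n}

/-- `graze_one` for all sides of `S` at the same time. -/
theorem graze_all {S : Set (Fin n)} (hs : ∀ j ∈ S, ∃ p u : ℂ, ∀ r : ℝ, T.γ j r = p + r * u)
    {i : Fin n} {f d : ℂ} (hd : ‖d‖ = 1)
    (hpar : ∀ r ∈ Icc 0 (T.len i), ∃ ρ ∈ Icc 0 (T.len i), T.γ i r = f + ρ * d)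
    (hpar' : ∀ ρ ∈ Icc 0 (T.len i), ∃ x ∈ Icc 0 (T.len i), T.γ i x = f + ρ * d ∧
      (x = 0 ∨ x = T.len i → ρ = 0 ∨ ρ = T.len i))
    {N : ℂ} (hN : ∀ v : ℂ, ‖v‖ = 1 → ip v N = 0 → 0 ≤ ip v d → v = d) (hNd : ip d N = 0)
    (hN1 : ‖N‖ = 1) (hclear : T.Clear S i (f + T.len i * d) d) :
    ∃ η > 0, ∀ r ∈ Icc 0 (T.len i), ∀ v : ℂ, ‖v‖ = 1 → 0 < ip v N → 0 < ip v d →
      ∀ j ∈ S, ∀ s ∈ Icc 0 (T.len j), ∀ τ : ℝ, 0 < τ →
        (∀ t ∈ Ioo 0 τ, T.γ i r + t * v ∈ T.region) →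
        T.γ j s = T.γ i r + τ * v → η ≤ ip v N := by
  have key : ∀ j : Fin n, ∃ η > 0, j ∈ S → ∀ r ∈ Icc 0 (T.len i), ∀ v : ℂ, ‖v‖ = 1 →
      0 < ip v N → 0 < ip v d → ∀ s ∈ Icc 0 (T.len j), ∀ τ : ℝ, 0 < τ →
        (∀ t ∈ Ioo 0 τ, T.γ i r + t * v ∈ T.region) →
        T.γ j s = T.γ i r + τ * v → η ≤ ip v N := by
    intro j
    by_cases hj : j ∈ S
    · by_cases hji : j = i
      · subst hji
        refine ⟨1, one_pos, ?_⟩
        intro _ r hr v hv h1 h2 s hs' τ hτ h3 h4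
        exfalso
        obtain ⟨ρ, -, e1⟩ := hpar r hr
        obtain ⟨ρ', -, e2⟩ := hpar s hs'
        have e3 : ((ρ' - ρ : ℝ) : ℂ) * d = (τ : ℂ) * v := by
          rw [e1, e2] at h4
          push_cast
          linear_combination h4
        have e4 : (ρ' - ρ) * ip d N = τ * ip v N := by
          rw [← ip_rmul_left, e3, ip_rmul_left]
        rw [hNd, mul_zero] at e4
        have := mul_pos hτ h1
        linarith
      · obtain ⟨p, u, hpu⟩ := hs j hj
        obtain ⟨η, hη, h⟩ := graze_one hd hpar hpar' hN hNd hN1 hpu hji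
          (fun t ht hcl => hclear j hj hji t ht hcl)
        exact ⟨η, hη, fun _ => h⟩
    · exact ⟨1, one_pos, fun h => absurd h hj⟩
  choose η hη hkey using key
  refine ⟨Finset.univ.inf' ⟨i, Finset.mem_univ i⟩ η, ?_, ?_⟩
  · rw [gt_iff_lt, Finset.lt_inf'_iff]
    exact fun j _ => hη j
  · intro r hr v hv h1 h2 j hj s hs' τ hτ h3 h4
    exact (Finset.inf'_le η (Finset.mem_univ j)).trans
      (hkey j hj r hr v hv h1 h2 s hs' τ hτ h3 h4)

/-- The two ends of a straight side. -/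
theorem graze_ends {S : Set (Fin n)} (hs : ∀ j ∈ S, ∃ p u : ℂ, ∀ r : ℝ, T.γ j r = p + r * u)
    {i : Fin n} (hi : i ∈ S) (hexp : T.Exposed S i) :
    ∃ σ : ℝ, (σ = 1 ∨ σ = -1) ∧ ∃ η > 0, ∀ r ∈ Icc 0 (T.len i), ∀ v : ℂ, ‖v‖ = 1 →
      0 < ip v (Complex.I * deriv (T.γ i) 0) → 0 < σ * ip v (deriv (T.γ i) 0) →
      ∀ j ∈ S, ∀ s ∈ Icc 0 (T.len j), ∀ τ : ℝ, 0 < τ →
        (∀ t ∈ Ioo 0 τ, T.γ i r + t * v ∈ T.region) →
        T.γ j s = T.γ i r + τ * v → η ≤ ip v (Complex.I * deriv (T.γ i) 0) := by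
  obtain ⟨p, u, hpu⟩ := hs i hi
  have hu : ‖u‖ = 1 := na_norm hpu
  have hdu : deriv (T.γ i) 0 = u := na_deriv hpu 0
  have hIu : ‖Complex.I * u‖ = 1 := by rw [norm_mul, Complex.norm_I, one_mul, hu]
  have hl := T.len_pos i
  have h0 : T.γ i 0 = p := by rw [hpu]; simp
  rw [hdu]
  rcases hexp with hexp | hexp
  · refine ⟨1, Or.inl rfl, ?_⟩
    rw [hdu] at hexp
    have he : T.γ i (T.len i) = T.γ i 0 + T.len i * u := by rw [h0, hpu]
    rw [he] at hexp
    obtain ⟨η, hη, h⟩ := graze_all hs (f := T.γ i 0) hu (N := Complex.I * u)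
      (fun r hr => ⟨r, hr, by rw [h0, hpu]⟩)
      (fun ρ hρ => ⟨ρ, hρ, by rw [h0, hpu], fun h => h⟩)
      (fun v hv h1 h2 => by
        have e1 := ip_decomp v u hu
        have e2 := norm_sq_decomp v u hu
        rw [h1, hv] at e2
        rw [h1] at e1
        have e3 : ip v u = 1 := by
          have : (ip v u - 1) * (ip v u + 1) = 0 := by nlinarith
          rcases mul_eq_zero.1 this with h | h
          · linarith
          · linarith
        rw [e3] at e1
        simpa using e1)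
      (ip_I_self u) hIu hexp
    refine ⟨η, hη, fun r hr v hv h1 h2 j hj s hs' τ hτ h3 h4 => ?_⟩
    exact h r hr v hv h1 (by linarith) j hj s hs' τ hτ h3 h4
  · refine ⟨-1, Or.inr rfl, ?_⟩
    rw [hdu] at hexp
    have he : T.γ i 0 = T.γ i (T.len i) + T.len i * (-u) := by
      rw [h0, hpu]; ring
    rw [he] at hexp
    obtain ⟨η, hη, h⟩ := graze_all hs (f := T.γ i (T.len i)) (d := -u) (by rw [norm_neg, hu])
      (N := Complex.I * u)
      (fun r hr => ⟨T.len i - r, ⟨by linarith [hr.2], by linarith [hr.1]⟩, by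
        rw [hpu, hpu]; push_cast; ring⟩)
      (fun ρ hρ => ⟨T.len i - ρ, ⟨by linarith [hρ.2], by linarith [hρ.1]⟩, by
        rw [hpu, hpu]; push_cast; ring, fun h => by
          rcases h with h | h
          · right; linarith
          · left; linarith⟩)
      (fun v hv h1 h2 => by
        have e1 := ip_decomp v u hu
        have e2 := norm_sq_decomp v u hu
        rw [h1, hv] at e2
        rw [h1] at e1
        rw [ip_neg_right] at h2
        have e3 : ip v u = -1 := by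
          have : (ip v u - 1) * (ip v u + 1) = 0 := by nlinarith
          rcases mul_eq_zero.1 this with h | h
          · linarith
          · linarith
        rw [e3] at e1
        simpa using e1)
      (by rw [ip_neg_left, ip_I_self, neg_zero]) hIu hexp
    refine ⟨η, hη, fun r hr v hv h1 h2 j hj s hs' τ hτ h3 h4 => ?_⟩
    exact h r hr v hv h1 (by rw [ip_neg_right]; linarith) j hj s hs' τ hτ h3 h4

/-- Trapped orbits hit an exposed side at angles bounded from below. -/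
theorem exposed_grazing {S : Set (Fin n)}
    (hs : ∀ j ∈ S, ∃ p u : ℂ, ∀ r : ℝ, T.γ j r = p + r * u)
    {i : Fin n} (hi : i ∈ S) (hexp : T.Exposed S i) :
    ∃ η > 0, ∀ z a b : Fin n × ℝ × ℝ, T.Next z a → T.Next a b → a.1 = i → z.1 ∈ S → b.1 ∈ S →
      η ≤ Real.cos a.2.2 := by
  obtain ⟨σ, hσ, η, hη, h⟩ := graze_ends hs hi hexp
  obtain ⟨p, u, hpu⟩ := hs i hi
  have hu : ‖u‖ = 1 := na_norm hpu
  refine ⟨min η 1, lt_min hη one_pos, ?_⟩
  rintro z a b hza hab rfl hz hb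
  have ha : a ∈ T.phase := hza.2.1
  have hd : ∀ r, deriv (T.γ a.1) r = u := fun r => na_deriv hpu r
  have hnor : T.nor a = Complex.I * deriv (T.γ a.1) 0 := by rw [nor, tang, hd, hd]
  have htang : T.tang a = deriv (T.γ a.1) 0 := by rw [tang, hd, hd]
  have hr : a.2.1 ∈ Icc 0 (T.len a.1) := ⟨ha.1.1.le, ha.1.2.le⟩
  have hsin : Real.sin a.2.2 = 0 ∨ 0 < σ * Real.sin a.2.2 ∨ 0 < σ * (-Real.sin a.2.2) := by
    rcases lt_trichotomy (Real.sin a.2.2) 0 with h1 | h1 | h1
    · rcases hσ with h2 | h2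
      · right; right; rw [h2]; linarith
      · right; left; rw [h2]; linarith
    · left; exact h1
    · rcases hσ with h2 | h2
      · right; left; rw [h2]; linarith
      · right; right; rw [h2]; linarith
  rcases hsin with h1 | h1 | h1
  · have h2 := Real.sin_sq_add_cos_sq a.2.2
    rw [h1] at h2
    have h3 := T.cos_pos ha
    have h4 : Real.cos a.2.2 = 1 := by nlinarith
    rw [h4]
    exact min_le_right _ _
  · -- forward chord
    obtain ⟨-, hbp, τ, hτ, hin, hpt, -⟩ := id hab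
    refine (min_le_left _ _).trans ?_
    have e1 : ip (T.vel a) (Complex.I * deriv (T.γ a.1) 0) = Real.cos a.2.2 := by
      rw [← hnor]; exact T.ip_vel_nor ha
    have e2 : ip (T.vel a) (deriv (T.γ a.1) 0) = Real.sin a.2.2 := by
      rw [← htang]; exact T.ip_vel_tang ha
    rw [← e1]
    refine h a.2.1 hr (T.vel a) (T.vel_norm ha) (by rw [e1]; exact T.cos_pos ha)
      (by rw [e2]; exact h1) b.1 hb b.2.1 ⟨hbp.1.1.le, hbp.1.2.le⟩ τ hτ hin hpt
  · -- backward chord
    obtain ⟨hzp, -, τ, hτ, hin, hpt, hinc⟩ := id hza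
    refine (min_le_left _ _).trans ?_
    have e1 : ip (-T.inc a) (Complex.I * deriv (T.γ a.1) 0) = Real.cos a.2.2 := by
      rw [← hnor, ip_neg_left, T.ip_inc_nor ha, neg_neg]
    have e2 : ip (-T.inc a) (deriv (T.γ a.1) 0) = -Real.sin a.2.2 := by
      rw [← htang, ip_neg_left, T.ip_inc_tang ha]
    rw [← e1]
    refine h a.2.1 hr (-T.inc a) (by rw [norm_neg]; exact T.inc_norm ha)
      (by rw [e1]; exact T.cos_pos ha) (by rw [e2]; exact h1) z.1 hz z.2.1
      ⟨hzp.1.1.le, hzp.1.2.le⟩ τ hτ ?_ ?_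
    · intro t ht
      have h2 := hin (τ - t) ⟨by linarith [ht.2], by linarith [ht.1]⟩
      have e3 : T.γ a.1 a.2.1 + (t : ℂ) * (-T.inc a) = T.pt z + ((τ - t : ℝ) : ℂ) * T.vel z := by
        have e4 : T.γ a.1 a.2.1 = T.pt z + τ * T.vel z := hpt
        rw [e4, hinc]
        push_cast
        ring
      rw [e3]
      exact h2
    · have e4 : T.γ a.1 a.2.1 = T.pt z + τ * T.vel z := hpt
      show T.pt z = _
      rw [e4, hinc]
      ring

end Table

end

end Pool.Agent.MP2e716c
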