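import Pool.Agent.H.MP_2e716c_an.Basic

/-! Powers of a number of infinite order on the unit circle enter every arc, and the resulting
barriers in a chain of directions. -/

open Set MeasureTheory Filter Topology

namespace Pool.Agent.MP2e716c

noncomputable section

/-- Natural powers of an element of infinite order are dense in the circle. -/
theorem b7_dense (z : Circle) (hz : ∀ m : ℕ, 0 < m → z ^ m ≠ 1) :
    DenseRange (z ^ · : ℕ → Circle) := by
  rw [← denseRange_zpow_iff_pow]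
  have : Fact (0 < (1 : ℝ)) := ⟨one_pos⟩
  let e := AddCircle.homeomorphCircle (T := 1) one_ne_zero
  obtain ⟨a, ha⟩ := e.surjective z
  have ha' : AddCircle.toCircle a = z := by
    rw [← AddCircle.homeomorphCircle_apply one_ne_zero]; exact ha
  have h1 : addOrderOf a = 0 := by
    rw [addOrderOf_eq_zero_iff']
    intro m hm h0
    apply hz m hm
    rw [← ha', ← AddCircle.toCircle_nsmul, h0, AddCircle.toCircle_zero]
  have h2 : DenseRange (· • a : ℤ → AddCircle (1 : ℝ)) := AddCircle.denseRange_zsmul_iff.2 h1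
  have h3 : DenseRange (e ∘ (· • a : ℤ → AddCircle (1 : ℝ))) :=
    e.surjective.denseRange.comp h2 e.continuous
  have h4 : (z ^ · : ℤ → Circle) = e ∘ (· • a : ℤ → AddCircle (1 : ℝ)) := by
    funext m
    show z ^ m = AddCircle.homeomorphCircle one_ne_zero (m • a)
    rw [AddCircle.homeomorphCircle_apply, AddCircle.toCircle_zsmul, ha']
  rw [h4]
  exact h3

/-- The orbit of a unit vector under an irrational rotation enters the arc next to the direction
orthogonal to `N`. -/
theorem b7_enter {ζ v N : ℂ} (hζ : ‖ζ‖ = 1) (hord : ∀ m : ℕ, 0 < m → ζ ^ m ≠ 1) (hv : ‖v‖ = 1)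
    (hN : ‖N‖ = 1) {η : ℝ} (hη : 0 < η) :
    ∃ K : ℕ, -η < ip (ζ ^ K * v) N ∧ ip (ζ ^ K * v) N < 0 := by
  let z : Circle := ⟨ζ, by simpa [Submonoid.unitSphere] using hζ⟩
  have hzc : (z : ℂ) = ζ := rfl
  have hz : ∀ m : ℕ, 0 < m → z ^ m ≠ 1 := by
    intro m hm h
    apply hord m hm
    rw [← hzc, ← Circle.coe_pow, h, Circle.coe_one]
  have hd := b7_dense z hz
  set U : Set Circle := {w | -η < ip ((w : ℂ) * v) N ∧ ip ((w : ℂ) * v) N < 0} with hU
  have hcont : Continuous fun w : Circle => ip ((w : ℂ) * v) N :=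
    ip_continuous.comp ((continuous_subtype_val.mul continuous_const).prodMk continuous_const)
  have hUo : IsOpen U :=
    (isOpen_lt continuous_const hcont).inter (isOpen_lt hcont continuous_const)
  have hne : U.Nonempty := by
    set δ := min η 1 / 2 with hδ
    have hδ0 : 0 < δ := by positivity
    have hδ1 : δ ≤ 1 / 2 := by
      have := min_le_right η 1
      linarith
    have hδη : δ < η := by
      have := min_le_left η 1
      linarith
    set s := Real.sqrt (1 - δ ^ 2) with hs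
    have hs2 : s ^ 2 = 1 - δ ^ 2 := Real.sq_sqrt (by nlinarith)
    set q : ℂ := (-δ : ℝ) * N + (s : ℝ) * (Complex.I * N) with hq
    have hqN : ip q N = -δ := by
      rw [hq, ip_add_left, ip_rmul_left, ip_rmul_left, ip_self, ip_self_I, hN]
      ring
    have hqI : ip q (Complex.I * N) = s := by
      rw [hq, ip_add_left, ip_rmul_left, ip_rmul_left, ip_I_mul, ip_self, ip_I_self, hN]
      ring
    have hq1 : ‖q‖ = 1 := by
      have h1 := norm_sq_decomp q N hN
      rw [hqN, hqI] at h1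
      nlinarith [norm_nonneg q]
    have hvv : (starRingEnd ℂ) v * v = 1 := by
      rw [mul_comm, Complex.mul_conj, Complex.normSq_eq_norm_sq, hv]; simp
    have hw : ‖q * (starRingEnd ℂ) v‖ = 1 := by
      rw [norm_mul, hq1, RCLike.norm_conj, hv, one_mul]
    refine ⟨⟨q * (starRingEnd ℂ) v, by simpa [Submonoid.unitSphere] using hw⟩, ?_⟩
    have e1 : (q * (starRingEnd ℂ) v) * v = q := by rw [mul_assoc, hvv, mul_one]
    show -η < ip ((q * (starRingEnd ℂ) v) * v) N ∧ ip ((q * (starRingEnd ℂ) v) * v) N < 0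
    rw [e1, hqN]
    constructor <;> linarith
  obtain ⟨K, hK⟩ := hd.exists_mem_open hUo hne
  refine ⟨K, ?_⟩
  have hK' : -η < ip (((z ^ K : Circle) : ℂ) * v) N ∧ ip (((z ^ K : Circle) : ℂ) * v) N < 0 := hK
  rw [Circle.coe_pow, hzc] at hK'
  exact hK'

theorem b7_conj {b : ℂ} (hb : ‖b‖ = 1) : b * (starRingEnd ℂ) b = 1 := by
  rw [Complex.mul_conj, Complex.normSq_eq_norm_sq, hb]; simp

/-- The reflection `w ↦ b² conj w` is symmetric. -/
theorem b7_symm (b x y : ℂ) :
    ip (b ^ 2 * (starRingEnd ℂ) x) y = ip x (b ^ 2 * (starRingEnd ℂ) y) := by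
  simp only [ip, Complex.mul_re, Complex.mul_im, Complex.conj_re, Complex.conj_im, pow_two]
  ring

/-- One-sided barriers.  `v` is a sequence of unit vectors, each reflected in a line of direction
`d = d k`; the lines are parallel to `b`, to `c` or to the mirror image `c' = b² conj c` of `c` in
`b`; reflections with `d = c` or `d = -c'` happen at angles bounded from below.  Then `v` takes
finitely many values. -/
theorem chain_one {b c : ℂ} (hb : ‖b‖ = 1) (hc : ‖c‖ = 1)
    (hord : ∀ m : ℕ, 0 < m → ((c * (starRingEnd ℂ) b) ^ 2) ^ m ≠ 1)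
    {v d : ℕ → ℂ} (hv : ‖v 0‖ = 1) (hrec : ∀ k, v (k + 1) = d k ^ 2 * (starRingEnd ℂ) (v k))
    (hneg : ∀ k, ip (v k) (Complex.I * d k) < 0)
    (hdir : ∀ k, (d k = b ∨ d k = -b) ∨ (d k = c ∨ d k = -c) ∨
      (d k = b ^ 2 * (starRingEnd ℂ) c ∨ d k = -(b ^ 2 * (starRingEnd ℂ) c)))
    {η : ℝ} (hη : 0 < η)
    (hexp : ∀ k, d k = c ∨ d k = -(b ^ 2 * (starRingEnd ℂ) c) →
      ip (v k) (Complex.I * d k) ≤ -η) :
    (Set.range v).Finite := by
  set ζ : ℂ := (c * (starRingEnd ℂ) b) ^ 2 with hζ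
  have hbb := b7_conj hb
  have hcc := b7_conj hc
  have hζ1 : ‖ζ‖ = 1 := by
    rw [hζ, norm_pow, norm_mul, RCLike.norm_conj, hc, hb]; norm_num
  have hζζ := b7_conj hζ1
  have hζ0 : ζ ≠ 0 := by
    intro h; rw [h, norm_zero] at hζ1; norm_num at hζ1
  have hinv : ζ⁻¹ = (starRingEnd ℂ) ζ := inv_eq_of_mul_eq_one_right hζζ
  have hcζ : (starRingEnd ℂ) ζ = ((starRingEnd ℂ) c * b) ^ 2 := by
    rw [hζ, map_pow, map_mul, Complex.conj_conj]
  have hζi : ‖ζ⁻¹‖ = 1 := by rw [norm_inv, hζ1, inv_one]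
  have hordi : ∀ m : ℕ, 0 < m → ζ⁻¹ ^ m ≠ 1 := by
    intro m hm h
    rw [inv_pow, inv_eq_one] at h
    exact hord m hm h
  have hIc : ‖Complex.I * c‖ = 1 := by rw [norm_mul, Complex.norm_I, hc, one_mul]
  set x : ℤ → ℂ := fun K => ζ ^ K * v 0 with hx
  set y : ℤ → ℂ := fun K => b ^ 2 * (starRingEnd ℂ) (x K) with hy
  have hxs : ∀ K : ℤ, x (K + 1) = ζ * x K := by
    intro K
    simp only [hx]
    rw [zpow_add_one₀ hζ0]
    ring
  have hxp : ∀ K : ℤ, x K = ζ * x (K - 1) := by
    intro K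
    rw [← hxs, sub_add_cancel]
  have hBy : ∀ K : ℤ, b ^ 2 * (starRingEnd ℂ) (y K) = x K := by
    intro K
    simp only [hy, map_mul, map_pow, Complex.conj_conj]
    linear_combination (b * (starRingEnd ℂ) b + 1) * x K * hbb
  have hCy : ∀ K : ℤ, c ^ 2 * (starRingEnd ℂ) (y K) = x (K + 1) := by
    intro K
    rw [hxs]
    simp only [hy, map_mul, map_pow, Complex.conj_conj, hζ]
    ring
  have hCx : ∀ K : ℤ, c ^ 2 * (starRingEnd ℂ) (x K) = y (K - 1) := by
    intro K
    have h1 : y (K - 1) = b ^ 2 * (starRingEnd ℂ) (x (K - 1)) := rfl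
    rw [h1, hxp K, map_mul, hcζ]
    linear_combination b ^ 2 * (starRingEnd ℂ) (x (K - 1)) * (c * (starRingEnd ℂ) c + 1) * hcc
  have hDx : ∀ K : ℤ, (b ^ 2 * (starRingEnd ℂ) c) ^ 2 * (starRingEnd ℂ) (x K) = y (K + 1) := by
    intro K
    have h1 : y (K + 1) = b ^ 2 * (starRingEnd ℂ) (x (K + 1)) := rfl
    rw [h1, hxs K, map_mul (starRingEnd ℂ) ζ (x K), hcζ]
    ring
  have hDy : ∀ K : ℤ, (b ^ 2 * (starRingEnd ℂ) c) ^ 2 * (starRingEnd ℂ) (y K) = x (K - 1) := by
    intro K
    have h1 : y K = b ^ 2 * (starRingEnd ℂ) (x K) := rfl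
    rw [h1, hxp K]
    simp only [map_mul, map_pow, Complex.conj_conj]
    rw [hζ]
    have e1 : (b * (starRingEnd ℂ) b) ^ 4 * (c * (starRingEnd ℂ) c) ^ 2 = 1 := by
      rw [hbb, hcc]; norm_num
    linear_combination x (K - 1) * e1
  -- barriers
  obtain ⟨k1, hk1, hk1'⟩ := b7_enter hζi hordi hv hIc hη
  obtain ⟨k2, hk2, hk2'⟩ := b7_enter hζi hordi (v := b ^ 2 * (starRingEnd ℂ) (v 0))
    (by rw [norm_mul, norm_pow, hb, RCLike.norm_conj, hv]; norm_num) hIc hη
  set K1 : ℤ := -(k1 : ℤ) with hK1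
  set K2 : ℤ := (k2 : ℤ) with hK2
  have hx1 : x K1 = ζ⁻¹ ^ k1 * v 0 := by
    simp only [hx, hK1]
    rw [zpow_neg, zpow_natCast, inv_pow]
  have hy2 : y K2 = ζ⁻¹ ^ k2 * (b ^ 2 * (starRingEnd ℂ) (v 0)) := by
    simp only [hy, hx, hK2]
    rw [zpow_natCast, map_mul, map_pow, hinv]
    ring
  rw [← hx1] at hk1 hk1'
  rw [← hy2] at hk2 hk2'
  -- values on the mirror line
  have hIc' : -(Complex.I * (b ^ 2 * (starRingEnd ℂ) c)) = b ^ 2 * (starRingEnd ℂ) (Complex.I * c) := by
    rw [map_mul, Complex.conj_I]; ring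
  have hm2 : ip (x K2) (-(Complex.I * (b ^ 2 * (starRingEnd ℂ) c))) = ip (y K2) (Complex.I * c) := by
    rw [hIc', ← b7_symm]
  have hm1 : ip (y K1) (-(Complex.I * (b ^ 2 * (starRingEnd ℂ) c))) = ip (x K1) (Complex.I * c) := by
    rw [hIc', ← b7_symm, hBy]
  rw [ip_neg_right] at hm1 hm2
  have hinvt : ∀ k, ∃ K : ℤ, K1 ≤ K ∧ K ≤ K2 ∧ (v k = x K ∨ v k = y K) := by
    intro k
    induction k with
    | zero =>
      refine ⟨0, by omega, by omega, Or.inl ?_⟩
      simp [hx]
    | succ k ih =>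
      obtain ⟨K, h1, h2, h3⟩ := ih
      have hr := hrec k
      have hn := hneg k
      have he := hexp k
      rcases hdir k with hd | hd | hd
      · have hd2 : d k ^ 2 = b ^ 2 := by
          rcases hd with hd | hd <;> rw [hd]; ring
        rw [hd2] at hr
        rcases h3 with h3 | h3
        · rw [h3] at hr
          exact ⟨K, h1, h2, Or.inr hr⟩
        · rw [h3, hBy] at hr
          exact ⟨K, h1, h2, Or.inl hr⟩
      · have hd2 : d k ^ 2 = c ^ 2 := by
          rcases hd with hd | hd <;> rw [hd]; ring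
        rw [hd2] at hr
        have hno : ∀ w : ℂ, v k = w → -η < ip w (Complex.I * c) → ip w (Complex.I * c) < 0 →
            False := by
          intro w hw g1 g2
          rcases hd with hd | hd
          · have g3 := he (Or.inl hd)
            rw [hd, hw] at g3
            linarith
          · rw [hd, hw, mul_neg, ip_neg_right] at hn
            linarith
        rcases h3 with h3 | h3
        · rcases h1.lt_or_eq with h1' | h1'
          · rw [h3, hCx] at hr
            exact ⟨K - 1, by omega, by omega, Or.inr hr⟩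
          · rw [← h1'] at h3
            exact (hno _ h3 hk1 hk1').elim
        · rcases h2.lt_or_eq with h2' | h2'
          · rw [h3, hCy] at hr
            exact ⟨K + 1, by omega, by omega, Or.inl hr⟩
          · rw [h2'] at h3
            exact (hno _ h3 hk2 hk2').elim
      · have hd2 : d k ^ 2 = (b ^ 2 * (starRingEnd ℂ) c) ^ 2 := by
          rcases hd with hd | hd <;> rw [hd]; ring
        rw [hd2] at hr
        have hno : ∀ w : ℂ, v k = w → -η < -ip w (Complex.I * (b ^ 2 * (starRingEnd ℂ) c)) →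
            -ip w (Complex.I * (b ^ 2 * (starRingEnd ℂ) c)) < 0 → False := by
          intro w hw g1 g2
          rcases hd with hd | hd
          · rw [hd, hw] at hn
            linarith
          · have g3 := he (Or.inr hd)
            rw [hd, hw, mul_neg, ip_neg_right] at g3
            linarith
        rcases h3 with h3 | h3
        · rcases h2.lt_or_eq with h2' | h2'
          · rw [h3, hDx] at hr
            exact ⟨K + 1, by omega, by omega, Or.inr hr⟩
          · rw [h2'] at h3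
            exact (hno _ h3 (by rw [hm2]; exact hk2) (by rw [hm2]; exact hk2')).elim
        · rcases h1.lt_or_eq with h1' | h1'
          · rw [h3, hDy] at hr
            exact ⟨K - 1, by omega, by omega, Or.inl hr⟩
          · rw [← h1'] at h3
            exact (hno _ h3 (by rw [hm1]; exact hk1) (by rw [hm1]; exact hk1')).elim
  refine (((Set.finite_Icc K1 K2).image x).union ((Set.finite_Icc K1 K2).image y)).subset ?_
  rintro _ ⟨k, rfl⟩
  obtain ⟨K, h1, h2, h3⟩ := hinvt k
  rcases h3 with h3 | h3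
  · exact Or.inl ⟨K, ⟨h1, h2⟩, h3.symm⟩
  · exact Or.inr ⟨K, ⟨h1, h2⟩, h3.symm⟩

/-- Two-sided barriers: the lines are parallel or perpendicular to `b`, or parallel to `c` or to the
mirror image `c' = b² conj c` of `c` in `b`, and all reflections in lines parallel to `c` or `c'`
happen at angles bounded from below. -/
theorem chain_two {b c : ℂ} (hb : ‖b‖ = 1) (hc : ‖c‖ = 1)
    (hord : ∀ m : ℕ, 0 < m → ((c * (starRingEnd ℂ) b) ^ 2) ^ m ≠ 1)
    {v d : ℕ → ℂ} (hv : ‖v 0‖ = 1) (hrec : ∀ k, v (k + 1) = d k ^ 2 * (starRingEnd ℂ) (v k))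
    (hneg : ∀ k, ip (v k) (Complex.I * d k) < 0)
    (hdir : ∀ k, (d k = b ∨ d k = -b) ∨ (d k = Complex.I * b ∨ d k = -(Complex.I * b)) ∨
      (d k = c ∨ d k = -c) ∨
      (d k = b ^ 2 * (starRingEnd ℂ) c ∨ d k = -(b ^ 2 * (starRingEnd ℂ) c)))
    {η : ℝ} (hη : 0 < η)
    (hexp : ∀ k, ((d k = c ∨ d k = -c) ∨
      (d k = b ^ 2 * (starRingEnd ℂ) c ∨ d k = -(b ^ 2 * (starRingEnd ℂ) c))) →
      ip (v k) (Complex.I * d k) ≤ -η) :
    (Set.range v).Finite := by
  set ζ : ℂ := (c * (starRingEnd ℂ) b) ^ 2 with hζ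
  have hbb := b7_conj hb
  have hcc := b7_conj hc
  have hζ1 : ‖ζ‖ = 1 := by
    rw [hζ, norm_pow, norm_mul, RCLike.norm_conj, hc, hb]; norm_num
  have hζζ := b7_conj hζ1
  have hζ0 : ζ ≠ 0 := by
    intro h; rw [h, norm_zero] at hζ1; norm_num at hζ1
  have hinv : ζ⁻¹ = (starRingEnd ℂ) ζ := inv_eq_of_mul_eq_one_right hζζ
  have hcζ : (starRingEnd ℂ) ζ = ((starRingEnd ℂ) c * b) ^ 2 := by
    rw [hζ, map_pow, map_mul, Complex.conj_conj]
  have hζi : ‖ζ⁻¹‖ = 1 := by rw [norm_inv, hζ1, inv_one]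
  have hordi : ∀ m : ℕ, 0 < m → ζ⁻¹ ^ m ≠ 1 := by
    intro m hm h
    rw [inv_pow, inv_eq_one] at h
    exact hord m hm h
  have hIc : ‖Complex.I * c‖ = 1 := by rw [norm_mul, Complex.norm_I, hc, one_mul]
  set x : ℤ → ℂ := fun K => ζ ^ K * v 0 with hx
  set y : ℤ → ℂ := fun K => b ^ 2 * (starRingEnd ℂ) (x K) with hy
  have hxs : ∀ K : ℤ, x (K + 1) = ζ * x K := by
    intro K
    simp only [hx]
    rw [zpow_add_one₀ hζ0]
    ring
  have hxp : ∀ K : ℤ, x K = ζ * x (K - 1) := by
    intro K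
    rw [← hxs, sub_add_cancel]
  have hBy : ∀ K : ℤ, b ^ 2 * (starRingEnd ℂ) (y K) = x K := by
    intro K
    simp only [hy, map_mul, map_pow, Complex.conj_conj]
    linear_combination (b * (starRingEnd ℂ) b + 1) * x K * hbb
  have hCy : ∀ K : ℤ, c ^ 2 * (starRingEnd ℂ) (y K) = x (K + 1) := by
    intro K
    rw [hxs]
    simp only [hy, map_mul, map_pow, Complex.conj_conj, hζ]
    ring
  have hCx : ∀ K : ℤ, c ^ 2 * (starRingEnd ℂ) (x K) = y (K - 1) := by
    intro K
    have h1 : y (K - 1) = b ^ 2 * (starRingEnd ℂ) (x (K - 1)) := rfl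
    rw [h1, hxp K, map_mul, hcζ]
    linear_combination b ^ 2 * (starRingEnd ℂ) (x (K - 1)) * (c * (starRingEnd ℂ) c + 1) * hcc
  have hDx : ∀ K : ℤ, (b ^ 2 * (starRingEnd ℂ) c) ^ 2 * (starRingEnd ℂ) (x K) = y (K + 1) := by
    intro K
    have h1 : y (K + 1) = b ^ 2 * (starRingEnd ℂ) (x (K + 1)) := rfl
    rw [h1, hxs K, map_mul (starRingEnd ℂ) ζ (x K), hcζ]
    ring
  have hDy : ∀ K : ℤ, (b ^ 2 * (starRingEnd ℂ) c) ^ 2 * (starRingEnd ℂ) (y K) = x (K - 1) := by
    intro K
    have h1 : y K = b ^ 2 * (starRingEnd ℂ) (x K) := rfl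
    rw [h1, hxp K]
    simp only [map_mul, map_pow, Complex.conj_conj]
    rw [hζ]
    have e1 : (b * (starRingEnd ℂ) b) ^ 4 * (c * (starRingEnd ℂ) c) ^ 2 = 1 := by
      rw [hbb, hcc]; norm_num
    linear_combination x (K - 1) * e1
  -- barriers
  obtain ⟨k1, hk1, hk1'⟩ := b7_enter hζi hordi hv hIc hη
  obtain ⟨k2, hk2, hk2'⟩ := b7_enter hζi hordi (v := b ^ 2 * (starRingEnd ℂ) (v 0))
    (by rw [norm_mul, norm_pow, hb, RCLike.norm_conj, hv]; norm_num) hIc hη
  set K1 : ℤ := -(k1 : ℤ) with hK1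
  set K2 : ℤ := (k2 : ℤ) with hK2
  have hx1 : x K1 = ζ⁻¹ ^ k1 * v 0 := by
    simp only [hx, hK1]
    rw [zpow_neg, zpow_natCast, inv_pow]
  have hy2 : y K2 = ζ⁻¹ ^ k2 * (b ^ 2 * (starRingEnd ℂ) (v 0)) := by
    simp only [hy, hx, hK2]
    rw [zpow_natCast, map_mul, map_pow, hinv]
    ring
  rw [← hx1] at hk1 hk1'
  rw [← hy2] at hk2 hk2'
  -- values on the mirror line
  have hIc' : -(Complex.I * (b ^ 2 * (starRingEnd ℂ) c)) = b ^ 2 * (starRingEnd ℂ) (Complex.I * c) := by
    rw [map_mul, Complex.conj_I]; ring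
  have hm2 : ip (x K2) (-(Complex.I * (b ^ 2 * (starRingEnd ℂ) c))) = ip (y K2) (Complex.I * c) := by
    rw [hIc', ← b7_symm]
  have hm1 : ip (y K1) (-(Complex.I * (b ^ 2 * (starRingEnd ℂ) c))) = ip (x K1) (Complex.I * c) := by
    rw [hIc', ← b7_symm, hBy]
  rw [ip_neg_right] at hm1 hm2
  have hεc : ∀ ε : ℂ, ε = 1 ∨ ε = -1 → (starRingEnd ℂ) ε = ε := by
    rintro ε (rfl | rfl) <;> simp
  have hεip : ∀ ε : ℂ, ε = 1 ∨ ε = -1 → ∀ w N : ℂ, |ip (ε * w) N| = |ip w N| := by
    rintro ε (rfl | rfl) w N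
    · rw [one_mul]
    · rw [neg_one_mul, ip_neg_left, abs_neg]
  have hrefl : ∀ (e ε w w' : ℂ), (ε = 1 ∨ ε = -1) → e ^ 2 * (starRingEnd ℂ) w = w' →
      e ^ 2 * (starRingEnd ℂ) (ε * w) = ε * w' := by
    intro e ε w w' hε h
    rw [map_mul, hεc ε hε, ← h]
    ring
  have hinvt : ∀ k, ∃ K : ℤ, K1 ≤ K ∧ K ≤ K2 ∧ ∃ ε : ℂ, (ε = 1 ∨ ε = -1) ∧
      (v k = ε * x K ∨ v k = ε * y K) := by
    intro k
    induction k with
    | zero =>
      refine ⟨0, by omega, by omega, 1, Or.inl rfl, Or.inl ?_⟩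
      simp [hx]
    | succ k ih =>
      obtain ⟨K, h1, h2, ε, hε, h3⟩ := ih
      have hr := hrec k
      have hn := hneg k
      have he := hexp k
      rcases hdir k with hd | hd | hd | hd
      · have hd2 : d k ^ 2 = b ^ 2 := by
          rcases hd with hd | hd <;> rw [hd]; ring
        rw [hd2] at hr
        rcases h3 with h3 | h3
        · rw [h3, hrefl b ε _ (y K) hε rfl] at hr
          exact ⟨K, h1, h2, ε, hε, Or.inr hr⟩
        · rw [h3, hrefl b ε _ _ hε (hBy K)] at hr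
          exact ⟨K, h1, h2, ε, hε, Or.inl hr⟩
      · have hd2 : d k ^ 2 = -b ^ 2 := by
          rcases hd with hd | hd
          · rw [hd]; linear_combination b ^ 2 * Complex.I_sq
          · rw [hd]; linear_combination b ^ 2 * Complex.I_sq
        rw [hd2, neg_mul] at hr
        have hε' : -ε = 1 ∨ -ε = -1 := by
          rcases hε with rfl | rfl
          · exact Or.inr rfl
          · exact Or.inl (neg_neg 1)
        rcases h3 with h3 | h3
        · rw [h3, hrefl b ε _ (y K) hε rfl, ← neg_mul] at hr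
          exact ⟨K, h1, h2, -ε, hε', Or.inr hr⟩
        · rw [h3, hrefl b ε _ _ hε (hBy K), ← neg_mul] at hr
          exact ⟨K, h1, h2, -ε, hε', Or.inl hr⟩
      · have hd2 : d k ^ 2 = c ^ 2 := by
          rcases hd with hd | hd <;> rw [hd]; ring
        rw [hd2] at hr
        have hno : ∀ w : ℂ, v k = ε * w → -η < ip w (Complex.I * c) → ip w (Complex.I * c) < 0 →
            False := by
          intro w hw g1 g2
          have g3 := he (Or.inl hd)
          have g4 : |ip (v k) (Complex.I * d k)| = |ip w (Complex.I * c)| := by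
            rw [hw, hεip ε hε]
            rcases hd with hd | hd
            · rw [hd]
            · rw [hd, mul_neg, ip_neg_right, abs_neg]
          rw [abs_of_nonpos hn.le, abs_of_neg g2] at g4
          linarith
        rcases h3 with h3 | h3
        · rcases h1.lt_or_eq with h1' | h1'
          · rw [h3, hrefl c ε _ _ hε (hCx K)] at hr
            exact ⟨K - 1, by omega, by omega, ε, hε, Or.inr hr⟩
          · rw [← h1'] at h3
            exact (hno _ h3 hk1 hk1').elim
        · rcases h2.lt_or_eq with h2' | h2'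
          · rw [h3, hrefl c ε _ _ hε (hCy K)] at hr
            exact ⟨K + 1, by omega, by omega, ε, hε, Or.inl hr⟩
          · rw [h2'] at h3
            exact (hno _ h3 hk2 hk2').elim
      · have hd2 : d k ^ 2 = (b ^ 2 * (starRingEnd ℂ) c) ^ 2 := by
          rcases hd with hd | hd <;> rw [hd]; ring
        rw [hd2] at hr
        have hno : ∀ w : ℂ, v k = ε * w →
            -η < -ip w (Complex.I * (b ^ 2 * (starRingEnd ℂ) c)) →
            -ip w (Complex.I * (b ^ 2 * (starRingEnd ℂ) c)) < 0 → False := by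
          intro w hw g1 g2
          have g3 := he (Or.inr hd)
          have g4 : |ip (v k) (Complex.I * d k)| =
              |ip w (Complex.I * (b ^ 2 * (starRingEnd ℂ) c))| := by
            rw [hw, hεip ε hε]
            rcases hd with hd | hd
            · rw [hd]
            · rw [hd, mul_neg, ip_neg_right, abs_neg]
          rw [abs_of_nonpos hn.le, abs_of_pos (by linarith)] at g4
          linarith
        rcases h3 with h3 | h3
        · rcases h2.lt_or_eq with h2' | h2'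
          · rw [h3, hrefl _ ε _ _ hε (hDx K)] at hr
            exact ⟨K + 1, by omega, by omega, ε, hε, Or.inr hr⟩
          · rw [h2'] at h3
            exact (hno _ h3 (by rw [hm2]; exact hk2) (by rw [hm2]; exact hk2')).elim
        · rcases h1.lt_or_eq with h1' | h1'
          · rw [h3, hrefl _ ε _ _ hε (hDy K)] at hr
            exact ⟨K - 1, by omega, by omega, ε, hε, Or.inl hr⟩
          · rw [← h1'] at h3
            exact (hno _ h3 (by rw [hm1]; exact hk1) (by rw [hm1]; exact hk1')).elim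
  have hfin : ∀ w : ℤ → ℂ, (⋃ ε ∈ ({1, -1} : Set ℂ), (fun K => ε * w K) '' Set.Icc K1 K2).Finite :=
    fun w => (Set.toFinite _).biUnion fun ε _ => (Set.finite_Icc K1 K2).image _
  refine ((hfin x).union (hfin y)).subset ?_
  rintro _ ⟨k, rfl⟩
  obtain ⟨K, h1, h2, ε, hε, h3⟩ := hinvt k
  have hmem : ε ∈ ({1, -1} : Set ℂ) := by simpa using hε
  rcases h3 with h3 | h3
  · exact Or.inl (mem_iUnion₂.2 ⟨ε, hmem, K, ⟨h1, h2⟩, h3.symm⟩)
  · exact Or.inr (mem_iUnion₂.2 ⟨ε, hmem, K, ⟨h1, h2⟩, h3.symm⟩)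

end

end Pool.Agent.MP2e716c
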