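import Pool.Agent.H.MP_2e716c_an.helper20.B4
import Pool.Agent.H.MP_2e716c_an.helper20.B6
import Pool.Agent.H.MP_2e716c_an.helper20.B7
import Pool.Agent.H.MP_2e716c_an.Main

/-! Barred sets of neutral sides carry no trapped orbits. -/

open Set MeasureTheory Filter Topology

namespace Pool.Agent.MP2e716c

noncomputable section

namespace Table

variable {n : ℕ} [NeZero n] {T : Table n}

theorem clear_mono {S S' : Set (Fin n)} (h : S' ⊆ S) {i : Fin n} {p u : ℂ}
    (hc : T.Clear S i p u) : T.Clear S' i p u :=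
  fun j hj hji t ht hcl => hc j (h hj) hji t ht hcl

theorem exposed_mono {S S' : Set (Fin n)} (h : S' ⊆ S) {i : Fin n}
    (hc : T.Exposed S i) : T.Exposed S' i :=
  hc.imp (clear_mono h) (clear_mono h)

theorem barredOne_mono {S S' : Set (Fin n)} (h : S' ⊆ S) (hb : T.BarredOne S) : T.BarredOne S' := by
  obtain ⟨b, ν, h1, h2, h3⟩ := hb
  refine ⟨b, ν, h1, h2, fun i hi => ?_⟩
  rcases h3 i (h hi) with h4 | h4 | h4
  · exact Or.inl h4
  · exact Or.inr (Or.inl h4)
  · exact Or.inr (Or.inr ⟨h4.1, exposed_mono h h4.2⟩)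

theorem barredTwo_mono {S S' : Set (Fin n)} (h : S' ⊆ S) (hb : T.BarredTwo S) : T.BarredTwo S' := by
  obtain ⟨b, ν, h1, h2, h3⟩ := hb
  refine ⟨b, ν, h1, h2, fun i hi => ?_⟩
  rcases h3 i (h hi) with h4 | h4 | h4
  · exact Or.inl h4
  · exact Or.inr (Or.inl h4)
  · exact Or.inr (Or.inr ⟨h4.1, exposed_mono h h4.2⟩)

end Table

/-- Directions which are roots of unity times `b` are pairwise rational. -/
theorem b8_rational {n : ℕ} [NeZero n] (T : Table n) {S : Set (Fin n)} {b : ℂ} (hb : ‖b‖ = 1)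
    {m : ℕ} (hm : 0 < m) (h : ∀ i ∈ S, (deriv (T.γ i) 0 * (starRingEnd ℂ) b) ^ m = 1) :
    T.Rational S := by
  intro i hi j hj
  have hbb := b7_conj hb
  have hbb' : (starRingEnd ℂ) b * b = 1 := by rw [mul_comm]; exact hbb
  set x := deriv (T.γ i) 0 * (starRingEnd ℂ) b with hx
  set y := deriv (T.γ j) 0 * (starRingEnd ℂ) b with hy
  have hxm : x ^ m = 1 := h i hi
  have hym : y ^ m = 1 := h j hj
  have hx0 : x ≠ 0 := by
    intro h0; rw [h0, zero_pow hm.ne'] at hxm; exact zero_ne_one hxm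
  have hy0 : y ≠ 0 := by
    intro h0; rw [h0, zero_pow hm.ne'] at hym; exact zero_ne_one hym
  have hq : (y / x) ^ m = 1 := by rw [div_pow, hxm, hym, div_one]
  have hmem : Units.mk0 (y / x) (div_ne_zero hy0 hx0) ∈ rootsOfUnity m ℂ := by
    rw [mem_rootsOfUnity]
    ext
    simpa using hq
  have : NeZero m := ⟨hm.ne'⟩
  obtain ⟨k, -, hk⟩ := (Complex.mem_rootsOfUnity m _).1 hmem
  refine ⟨2 * k / m, ?_⟩
  have h1 : deriv (T.γ j) 0 = y * b := by rw [hy, mul_assoc, hbb', mul_one]
  have h2 : deriv (T.γ i) 0 = x * b := by rw [hx, mul_assoc, hbb', mul_one]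
  have h3 : y = x * (y / x) := by field_simp
  have h4 : (y / x) = Complex.exp (((2 * (k : ℚ) / (m : ℚ) : ℚ) : ℂ) * (Real.pi : ℂ) * Complex.I) := by
    have h5 : ((Units.mk0 (y / x) (div_ne_zero hy0 hx0) : ℂˣ) : ℂ) = y / x := rfl
    rw [← h5, ← hk]
    congr 1
    push_cast
    ring
  rw [h1, h2, ← h4]
  rw [show x * b * (y / x) = (x * (y / x)) * b by ring, ← h3]

/-- Coincidences between the directions `±b`, `±c`, `±c'` only occur for rational angles. -/
theorem b8_coinc {b c : ℂ} (hb : ‖b‖ = 1) (hc : ‖c‖ = 1) (h : (c * (starRingEnd ℂ) b) ^ 2 ≠ 1) :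
    c ≠ b ∧ c ≠ -b ∧ b ^ 2 * (starRingEnd ℂ) c ≠ b ∧ b ^ 2 * (starRingEnd ℂ) c ≠ -b ∧
      c ≠ b ^ 2 * (starRingEnd ℂ) c := by
  have hbb := b7_conj hb
  have hcc := b7_conj hc
  refine ⟨?_, ?_, ?_, ?_, ?_⟩
  · intro e; apply h; rw [e, hbb, one_pow]
  · intro e; apply h; rw [e, neg_mul, hbb]; norm_num
  · intro e
    have e1 := congrArg (starRingEnd ℂ) e
    rw [map_mul, map_pow, Complex.conj_conj] at e1
    apply h
    have e2 : c * (starRingEnd ℂ) b = 1 := by
      linear_combination b * e1 - c * (starRingEnd ℂ) b * hbb + hbb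
    rw [e2, one_pow]
  · intro e
    have e1 := congrArg (starRingEnd ℂ) e
    rw [map_mul, map_pow, Complex.conj_conj, map_neg] at e1
    apply h
    have e2 : c * (starRingEnd ℂ) b = -1 := by
      linear_combination b * e1 - c * (starRingEnd ℂ) b * hbb - hbb
    rw [e2]; norm_num
  · intro e
    apply h
    have e1 : c ^ 2 = b ^ 2 := by linear_combination c * e + b ^ 2 * hcc
    rw [mul_pow, e1, ← mul_pow, hbb, one_pow]

theorem b8_common {n : ℕ} [NeZero n] (η : Fin n → ℝ) (h : ∀ i, 0 < η i) :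
    ∃ η0 > 0, ∀ i, η0 ≤ η i := by
  obtain ⟨i, -, hi⟩ := Finset.exists_min_image Finset.univ η ⟨0, Finset.mem_univ _⟩
  exact ⟨η i, h i, fun j => hi j (Finset.mem_univ j)⟩

theorem b8_ne_neg {x : ℂ} (hx : ‖x‖ = 1) : x ≠ -x := by
  intro h
  have h1 : x = 0 := by linear_combination (1 / 2 : ℂ) * h
  rw [h1, norm_zero] at hx
  norm_num at hx

namespace SemiDisp

variable {n : ℕ} [NeZero n] (T : SemiDisp n)

theorem b8_straight {S : Set (Fin n)} (hS : Disjoint S T.disp) :
    ∀ j ∈ S, ∃ p u : ℂ, ∀ r : ℝ, T.Y.γ j r = p + r * u := by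
  intro j hj
  have hj' : j ∉ T.disp := Set.disjoint_left.1 hS hj
  rw [(T.neutral j hj').2]
  exact T.straight j

/-- One reflection of a trapped orbit. -/
theorem b8_step {S : Set (Fin n)} (hS : Disjoint S T.disp) {z : Fin n × ℝ × ℝ}
    (hz : z ∈ T.Y.AS S) (k : ℕ) :
    ‖T.Y.vel (T.Y.bmap^[k] z)‖ = 1 ∧
    T.Y.vel (T.Y.bmap^[k + 1] z) = deriv (T.Y.γ (T.Y.bmap^[k + 1] z).1) 0 ^ 2 *
      (starRingEnd ℂ) (T.Y.vel (T.Y.bmap^[k] z)) ∧
    ip (T.Y.vel (T.Y.bmap^[k] z)) (Complex.I * deriv (T.Y.γ (T.Y.bmap^[k + 1] z).1) 0) =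
      -Real.cos (T.Y.bmap^[k + 1] z).2.2 := by
  have hnd : ∀ i ∈ S, i ∉ T.disp := fun i hi => Set.disjoint_left.1 hS hi
  have h0 := hz k
  have h1 := hz (k + 1)
  obtain ⟨hp0, hp1, τ, -, -, -, hinc⟩ := id h0.1
  have hs := hnd _ h1.2.1
  have hd : ∀ r, deriv (T.Y.γ (T.Y.bmap^[k + 1] z).1) r =
      deriv (T.Y.γ (T.Y.bmap^[k + 1] z).1) 0 := by
    intro r
    rw [(T.neutral _ hs).2]
    exact T.main_deriv _ r
  refine ⟨T.Y.vel_norm hp0, ?_, ?_⟩
  · have h2 := Table.vel_eq_rfl' (T := T.P) T.straight (T.Y.bmap^[k + 1] z)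
    rw [T.geo8_vel hs, T.geo8_inc hs, hinc] at h2
    rw [h2, Table.rfl', Table.dir, (T.neutral _ hs).2]
  · rw [← hinc, ← T.Y.ip_inc_nor hp1, Table.nor, Table.tang, hd (T.Y.bmap^[k + 1] z).2.1]

theorem AS_null_of_barredOne {S : Set (Fin n)} (hS : Disjoint S T.disp) (hb : T.Y.BarredOne S) :
    T.Y.μ (T.Y.AS S) = 0 := by
  classical
  have hnd : ∀ i ∈ S, i ∉ T.disp := fun i hi => Set.disjoint_left.1 hS hi
  obtain ⟨b, ν, hb1, hν1, hside⟩ := hb
  -- directions instead of normals
  set c : ℂ := -(Complex.I * ν) with hc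
  have hc1 : ‖c‖ = 1 := by rw [hc, norm_neg, norm_mul, Complex.norm_I, one_mul, hν1]
  have hII : Complex.I * Complex.I = -1 := Complex.I_mul_I
  have hcI : Complex.I * c = ν := by rw [hc]; linear_combination (-ν) * hII
  have hmir : Complex.I * -(b ^ 2 * (starRingEnd ℂ) c) = Table.mir b ν := by
    rw [Table.mir, ← hcI, map_mul, Complex.conj_I]; ring
  have hcancel : ∀ x y : ℂ, Complex.I * x = Complex.I * y → x = y := fun x y h =>
    mul_left_cancel₀ Complex.I_ne_zero h
  have hdirs : ∀ i ∈ S, (deriv (T.Y.γ i) 0 = b ∨ deriv (T.Y.γ i) 0 = -b) ∨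
      (deriv (T.Y.γ i) 0 = -c ∨ deriv (T.Y.γ i) 0 = b ^ 2 * (starRingEnd ℂ) c) ∨
      ((deriv (T.Y.γ i) 0 = c ∨ deriv (T.Y.γ i) 0 = -(b ^ 2 * (starRingEnd ℂ) c)) ∧
        T.Y.Exposed S i) := by
    intro i hi
    rcases hside i hi with (h | h) | (h | h) | ⟨h | h, he⟩
    · exact Or.inl (Or.inl (hcancel _ _ h))
    · exact Or.inl (Or.inr (hcancel _ _ (h.trans (by ring))))
    · exact Or.inr (Or.inl (Or.inl (hcancel _ _ (h.trans (by rw [← hcI]; ring)))))
    · exact Or.inr (Or.inl (Or.inr (hcancel _ _ (h.trans (by rw [← hmir]; ring)))))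
    · exact Or.inr (Or.inr ⟨Or.inl (hcancel _ _ (h.trans hcI.symm)), he⟩)
    · exact Or.inr (Or.inr ⟨Or.inr (hcancel _ _ (h.trans hmir.symm)), he⟩)
  by_cases hrat : ∃ m : ℕ, 0 < m ∧ ((c * (starRingEnd ℂ) b) ^ 2) ^ m = 1
  · obtain ⟨m, hm, hm1⟩ := hrat
    refine T.AS_null_of_rational hS (b8_rational T.P hb1 (m := 2 * m) (by omega) ?_)
    intro i hi
    have hbb := b7_conj hb1
    have hcc := b7_conj hc1
    have e0 : ∀ x : ℂ, (x ^ 2) ^ m = x ^ (2 * m) := fun x => (pow_mul x 2 m).symm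
    have e1 : (c * (starRingEnd ℂ) b) ^ (2 * m) = 1 := by rw [← e0]; exact hm1
    have e2 : (b ^ 2 * (starRingEnd ℂ) c * (starRingEnd ℂ) b) ^ (2 * m) = 1 := by
      have e3 : b ^ 2 * (starRingEnd ℂ) c * (starRingEnd ℂ) b = (starRingEnd ℂ) (c * (starRingEnd ℂ) b) := by
        rw [map_mul, Complex.conj_conj]
        linear_combination b * (starRingEnd ℂ) c * hbb
      rw [e3, ← map_pow, e1, map_one]
    have e4 : ∀ x : ℂ, (-x) ^ (2 * m) = x ^ (2 * m) := fun x => by
      rw [neg_pow, pow_mul (-1 : ℂ) 2 m]; norm_num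
    rw [← (T.neutral i (hnd i hi)).2]
    rcases hdirs i hi with (h | h) | (h | h) | ⟨h | h, -⟩
    · rw [h, hbb, one_pow]
    · rw [h, neg_mul, hbb, e4, one_pow]
    · rw [h, neg_mul, e4, e1]
    · rw [h, e2]
    · rw [h, e1]
    · rw [h, neg_mul, e4, e2]
  · push Not at hrat
    -- a common lower bound for the angles at exposed sides
    have hη : ∀ i : Fin n, ∃ η > 0, i ∈ S → T.Y.Exposed S i → ∀ z a b : Fin n × ℝ × ℝ,
        T.Y.Next z a → T.Y.Next a b → a.1 = i → z.1 ∈ S → b.1 ∈ S → η ≤ Real.cos a.2.2 := by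
      intro i
      by_cases h : i ∈ S ∧ T.Y.Exposed S i
      · obtain ⟨η, h1, h2⟩ := Table.exposed_grazing (T.b8_straight hS) h.1 h.2
        exact ⟨η, h1, fun _ _ => h2⟩
      · exact ⟨1, one_pos, fun h1 h2 => absurd ⟨h1, h2⟩ h⟩
    choose η hη0 hη1 using hη
    obtain ⟨η0, hη0p, hη0'⟩ := b8_common η hη0
    refine T.AS_null_of_finite hS ?_
    intro z hz
    have hstep := fun k => T.b8_step hS hz k
    refine chain_one hb1 hc1 hrat (v := fun k => T.Y.vel (T.Y.bmap^[k] z))
      (d := fun k => deriv (T.Y.γ (T.Y.bmap^[k + 1] z).1) 0) (hstep 0).1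
      (fun k => (hstep k).2.1) ?_ ?_ hη0p ?_
    · intro k
      show ip _ _ < 0
      rw [(hstep k).2.2]
      have := T.Y.cos_pos (hz k).1.2.1
      linarith
    · intro k
      rcases hdirs _ (hz (k + 1)).2.1 with h | (h | h) | ⟨h | h, -⟩
      · exact Or.inl h
      · exact Or.inr (Or.inl (Or.inr h))
      · exact Or.inr (Or.inr (Or.inl h))
      · exact Or.inr (Or.inl (Or.inl h))
      · exact Or.inr (Or.inr (Or.inr h))
    · intro k hk
      show ip _ _ ≤ -η0
      rw [(hstep k).2.2]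
      have hS1 := (hz (k + 1)).2.1
      have hne := hrat 1 one_pos
      rw [pow_one] at hne
      obtain ⟨n1, n2, n3, n4, n5⟩ := b8_coinc hb1 hc1 hne
      have hc'1 : ‖b ^ 2 * (starRingEnd ℂ) c‖ = 1 := by
        rw [norm_mul, norm_pow, RCLike.norm_conj, hb1, hc1]; norm_num
      have n6 := b8_ne_neg hc1
      have n7 := b8_ne_neg hc'1
      have hexp : T.Y.Exposed S (T.Y.bmap^[k + 1] z).1 := by
        rcases hdirs _ hS1 with h | h | h
        · exfalso
          rcases h with h | h <;> rcases hk with hk | hk <;> rw [h] at hk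
          · exact n1 hk.symm
          · exact n4 (by linear_combination hk)
          · exact n2 hk.symm
          · exact n3 (by linear_combination hk)
        · exfalso
          rcases h with h | h <;> rcases hk with hk | hk <;> rw [h] at hk
          · exact n6 hk.symm
          · exact n5 (by linear_combination -hk)
          · exact n5 hk.symm
          · exact n7 hk
        · exact h.2
      have h1 := hη1 _ hS1 hexp _ _ _ (hz k).1 (hz (k + 1)).1 rfl (hz k).2.1 (hz (k + 1 + 1)).2.1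
      have h2 : η0 ≤ η (T.Y.bmap^[k + 1] z).1 := hη0' _
      linarith

theorem AS_null_of_barredTwo {S : Set (Fin n)} (hS : Disjoint S T.disp) (hb : T.Y.BarredTwo S) :
    T.Y.μ (T.Y.AS S) = 0 := by
  classical
  have hnd : ∀ i ∈ S, i ∉ T.disp := fun i hi => Set.disjoint_left.1 hS hi
  obtain ⟨b, ν, hb1, hν1, hside⟩ := hb
  -- directions instead of normals
  set c : ℂ := -(Complex.I * ν) with hc
  have hc1 : ‖c‖ = 1 := by rw [hc, norm_neg, norm_mul, Complex.norm_I, one_mul, hν1]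
  have hII : Complex.I * Complex.I = -1 := Complex.I_mul_I
  have hcI : Complex.I * c = ν := by rw [hc]; linear_combination (-ν) * hII
  have hmir : Complex.I * -(b ^ 2 * (starRingEnd ℂ) c) = Table.mir b ν := by
    rw [Table.mir, ← hcI, map_mul, Complex.conj_I]; ring
  have hcancel : ∀ x y : ℂ, Complex.I * x = Complex.I * y → x = y := fun x y h =>
    mul_left_cancel₀ Complex.I_ne_zero h
  have hdirs : ∀ i ∈ S, (deriv (T.Y.γ i) 0 = b ∨ deriv (T.Y.γ i) 0 = -b) ∨
      (deriv (T.Y.γ i) 0 = Complex.I * b ∨ deriv (T.Y.γ i) 0 = -(Complex.I * b)) ∨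
      (((deriv (T.Y.γ i) 0 = c ∨ deriv (T.Y.γ i) 0 = -c) ∨
        (deriv (T.Y.γ i) 0 = b ^ 2 * (starRingEnd ℂ) c ∨
          deriv (T.Y.γ i) 0 = -(b ^ 2 * (starRingEnd ℂ) c))) ∧ T.Y.Exposed S i) := by
    intro i hi
    rcases hside i hi with (h | h) | (h | h) | ⟨h | h | h | h, he⟩
    · exact Or.inl (Or.inl (hcancel _ _ h))
    · exact Or.inl (Or.inr (hcancel _ _ (h.trans (by ring))))
    · exact Or.inr (Or.inl (Or.inr (hcancel _ _ (h.trans (by linear_combination b * hII)))))
    · exact Or.inr (Or.inl (Or.inl (hcancel _ _ (h.trans (by linear_combination (-b) * hII)))))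
    · exact Or.inr (Or.inr ⟨Or.inl (Or.inl (hcancel _ _ (h.trans hcI.symm))), he⟩)
    · exact Or.inr (Or.inr ⟨Or.inl (Or.inr (hcancel _ _ (h.trans (by rw [← hcI]; ring)))), he⟩)
    · exact Or.inr (Or.inr ⟨Or.inr (Or.inr (hcancel _ _ (h.trans hmir.symm))), he⟩)
    · exact Or.inr (Or.inr ⟨Or.inr (Or.inl (hcancel _ _ (h.trans (by rw [← hmir]; ring)))), he⟩)
  by_cases hrat : ∃ m : ℕ, 0 < m ∧ ((c * (starRingEnd ℂ) b) ^ 2) ^ m = 1
  · obtain ⟨m, hm, hm1⟩ := hrat
    refine T.AS_null_of_rational hS (b8_rational T.P hb1 (m := 4 * m) (by omega) ?_)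
    intro i hi
    have hbb := b7_conj hb1
    have hcc := b7_conj hc1
    have e1 : (c * (starRingEnd ℂ) b) ^ (4 * m) = 1 := by
      have e0 : (c * (starRingEnd ℂ) b) ^ (4 * m) = (((c * (starRingEnd ℂ) b) ^ 2) ^ m) ^ 2 := by
        rw [← pow_mul, ← pow_mul]
        congr 1
        ring
      rw [e0, hm1, one_pow]
    have e2 : (b ^ 2 * (starRingEnd ℂ) c * (starRingEnd ℂ) b) ^ (4 * m) = 1 := by
      have e3 : b ^ 2 * (starRingEnd ℂ) c * (starRingEnd ℂ) b = (starRingEnd ℂ) (c * (starRingEnd ℂ) b) := by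
        rw [map_mul, Complex.conj_conj]
        linear_combination b * (starRingEnd ℂ) c * hbb
      rw [e3, ← map_pow, e1, map_one]
    have e4 : ∀ x : ℂ, (-x) ^ (4 * m) = x ^ (4 * m) := fun x => by
      rw [neg_pow, pow_mul (-1 : ℂ) 4 m]; norm_num
    have e5 : Complex.I ^ (4 * m) = 1 := by rw [pow_mul, Complex.I_pow_four, one_pow]
    rw [← (T.neutral i (hnd i hi)).2]
    rcases hdirs i hi with (h | h) | (h | h) | ⟨(h | h) | (h | h), -⟩
    · rw [h, hbb, one_pow]
    · rw [h, neg_mul, hbb, e4, one_pow]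
    · rw [h, mul_assoc, hbb, mul_one, e5]
    · rw [h, neg_mul, mul_assoc, hbb, mul_one, e4, e5]
    · rw [h, e1]
    · rw [h, neg_mul, e4, e1]
    · rw [h, e2]
    · rw [h, neg_mul, e4, e2]
  · push Not at hrat
    -- a common lower bound for the angles at exposed sides
    have hη : ∀ i : Fin n, ∃ η > 0, i ∈ S → T.Y.Exposed S i → ∀ z a b : Fin n × ℝ × ℝ,
        T.Y.Next z a → T.Y.Next a b → a.1 = i → z.1 ∈ S → b.1 ∈ S → η ≤ Real.cos a.2.2 := by
      intro i
      by_cases h : i ∈ S ∧ T.Y.Exposed S i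
      · obtain ⟨η, h1, h2⟩ := Table.exposed_grazing (T.b8_straight hS) h.1 h.2
        exact ⟨η, h1, fun _ _ => h2⟩
      · exact ⟨1, one_pos, fun h1 h2 => absurd ⟨h1, h2⟩ h⟩
    choose η hη0 hη1 using hη
    obtain ⟨η0, hη0p, hη0'⟩ := b8_common η hη0
    refine T.AS_null_of_finite hS ?_
    intro z hz
    have hstep := fun k => T.b8_step hS hz k
    refine chain_two hb1 hc1 hrat (v := fun k => T.Y.vel (T.Y.bmap^[k] z))
      (d := fun k => deriv (T.Y.γ (T.Y.bmap^[k + 1] z).1) 0) (hstep 0).1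
      (fun k => (hstep k).2.1) ?_ ?_ hη0p ?_
    · intro k
      show ip _ _ < 0
      rw [(hstep k).2.2]
      have := T.Y.cos_pos (hz k).1.2.1
      linarith
    · intro k
      rcases hdirs _ (hz (k + 1)).2.1 with h | h | h
      · exact Or.inl h
      · exact Or.inr (Or.inl h)
      · exact Or.inr (Or.inr h.1)
    · intro k hk
      show ip _ _ ≤ -η0
      rw [(hstep k).2.2]
      have hS1 := (hz (k + 1)).2.1
      have hexp : T.Y.Exposed S (T.Y.bmap^[k + 1] z).1 ∨
          ∃ m : ℕ, 0 < m ∧ ((c * (starRingEnd ℂ) b) ^ 2) ^ m = 1 := by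
        rcases hdirs _ hS1 with h | h | h
        · right
          refine ⟨1, one_pos, ?_⟩
          rw [pow_one]
          by_contra hne
          obtain ⟨n1, n2, n3, n4, n5⟩ := b8_coinc hb1 hc1 hne
          rcases h with h | h <;> rcases hk with (hk | hk) | (hk | hk) <;> rw [h] at hk
          · exact n1 hk.symm
          · exact n2 (by linear_combination hk)
          · exact n3 hk.symm
          · exact n4 (by linear_combination hk)
          · exact n2 hk.symm
          · exact n1 (by linear_combination hk)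
          · exact n4 hk.symm
          · exact n3 (by linear_combination hk)
        · right
          refine ⟨2, two_pos, ?_⟩
          have hbb := b7_conj hb1
          have hsq : ∀ x : ℂ, x = Complex.I * b ∨ x = -(Complex.I * b) →
              (x * (starRingEnd ℂ) b) ^ 4 = 1 := by
            rintro x (rfl | rfl)
            · rw [mul_assoc, hbb, mul_one, Complex.I_pow_four]
            · rw [neg_mul, mul_assoc, hbb, mul_one, neg_pow, Complex.I_pow_four]; norm_num
          have hx := hsq _ h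
          have e3 : b ^ 2 * (starRingEnd ℂ) c * (starRingEnd ℂ) b =
              (starRingEnd ℂ) (c * (starRingEnd ℂ) b) := by
            rw [map_mul, Complex.conj_conj]
            linear_combination b * (starRingEnd ℂ) c * hbb
          have e4 : ((c * (starRingEnd ℂ) b)) ^ 4 = 1 := by
            rcases hk with (hk | hk) | (hk | hk) <;> rw [hk] at hx
            · exact hx
            · rw [neg_mul, neg_pow] at hx
              norm_num at hx
              exact hx
            · rw [e3, ← map_pow] at hx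
              have := congrArg (starRingEnd ℂ) hx
              rwa [Complex.conj_conj, map_one] at this
            · rw [neg_mul, e3, neg_pow, ← map_pow] at hx
              norm_num at hx
              have := congrArg (starRingEnd ℂ) hx
              simpa using this
          rw [← pow_mul]
          exact e4
        · exact Or.inl h.2
      rcases hexp with hexp | ⟨m, hm, hm1⟩
      · have h1 := hη1 _ hS1 hexp _ _ _ (hz k).1 (hz (k + 1)).1 rfl (hz k).2.1
          (hz (k + 1 + 1)).2.1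
        have h2 : η0 ≤ η (T.Y.bmap^[k + 1] z).1 := hη0' _
        linarith
      · exact absurd hm1 (hrat m hm)

/-- The barrier criterion. -/
theorem hyperbolic_of_barred (h : T.Y.Barred T.dispᶜ) :
    T.Y.Hyperbolic := by
  refine T.Y.hyperbolic_of_frequently T.disp ?_ T.curved ?_
  · intro i r hr
    by_cases hi : i ∈ T.disp
    · exact (T.curved i hi r hr).le
    · rw [T.curv_neutral hi]
  · refine T.Y.ae_frequently T.disp ?_
    intro S _ hS
    have hsub : S ⊆ T.dispᶜ := fun i hi => Set.disjoint_left.1 hS hi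
    rcases h with h | h
    · exact T.AS_null_of_barredOne hS (Table.barredOne_mono hsub h)
    · exact T.AS_null_of_barredTwo hS (Table.barredTwo_mono hsub h)

end SemiDisp

end

end Pool.Agent.MP2e716c
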