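import Pool.Agent.H.MP_2e716c_an.helper20.B8

/-! Exposed sides of convex polygons, and special cases of the barrier criterion. -/

open Set MeasureTheory Filter Topology

namespace Pool.Agent.MP2e716c

noncomputable section

namespace Table

variable {n : ℕ} [NeZero n] {T : Table n}

/-- Parallel unit vectors. -/
theorem b9_par {u w : ℂ} (hu : ‖u‖ = 1) (hw : ‖w‖ = 1) (h0 : ip u (Complex.I * w) = 0) :
    w = u ∨ w = -u := by
  have hd := ip_decomp u w hw
  rw [h0] at hd
  have hn := norm_sq_decomp u w hw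
  rw [h0, hu] at hn
  have h1 : ip u w = 1 ∨ ip u w = -1 := by
    have : ip u w ^ 2 = 1 := by nlinarith
    exact sq_eq_one_iff.1 this
  rcases h1 with h1 | h1
  · left; rw [h1] at hd; rw [hd]; push_cast; ring
  · right; rw [h1] at hd; rw [hd]; push_cast; ring

/-- In a convex polygon without straight corners the next side turns left. -/
theorem b9_turn (hT : T.Straight) (hconv : Convex ℝ T.region)
    (hcorner : ∀ i, deriv (T.γ (i + 1)) 0 ≠ deriv (T.γ i) 0) (i : Fin n) :
    ip (deriv (T.γ i) 0) (Complex.I * deriv (T.γ (i + 1)) 0) < 0 := by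
  obtain ⟨p, u, hpu⟩ := hT i
  obtain ⟨p', u', hpu'⟩ := hT (i + 1)
  rw [na_deriv hpu, na_deriv hpu']
  have hl := T.len_pos i
  have hend : T.γ i 0 ∈ closure T.region :=
    frontier_subset_closure (T.arc_mem_frontier i ⟨le_refl _, hl.le⟩)
  have m2 := left_of_convex hconv hpu' hend
  have hjoin : T.γ i (T.len i) = T.γ (i + 1) 0 := T.closed i
  have e1 : T.γ i 0 = T.γ (i + 1) 0 - (T.len i : ℂ) * u := by
    rw [← hjoin, hpu, hpu]; push_cast; ring
  rw [e1, show T.γ (i + 1) 0 - (T.len i : ℂ) * u - T.γ (i + 1) 0 =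
    ((-T.len i : ℝ) : ℂ) * u by push_cast; ring, ip_rmul_left] at m2
  have h1 : ip u (Complex.I * u') ≤ 0 := by
    by_contra hneg
    push Not at hneg
    nlinarith
  rcases h1.lt_or_eq with h | h
  · exact h
  · exfalso
    rcases b9_par (na_norm hpu) (na_norm hpu') h with h1 | h1
    · apply hcorner i
      rw [na_deriv hpu, na_deriv hpu', h1]
    · exact not_opposite hpu hpu' h1

/-- The end point of side `i` is not on a side other than `i` and `i + 1`. -/
theorem b9_end {i j : Fin n} (h1 : j ≠ i) (h2 : j ≠ i + 1) :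
    T.γ i (T.len i) ∉ T.γ j '' Icc 0 (T.len j) := by
  rintro ⟨s, hs, hsr⟩
  rw [T.closed i] at hsr
  rcases hs.2.lt_or_eq with hs' | hs'
  · exact h2 (T.inj j (i + 1) s 0 ⟨hs.1, hs'⟩ ⟨le_refl _, T.len_pos _⟩ hsr).1
  · rw [hs', T.closed j] at hsr
    have := (T.inj (j + 1) (i + 1) 0 0 ⟨le_refl _, T.len_pos _⟩ ⟨le_refl _, T.len_pos _⟩ hsr).1
    exact h1 (add_right_cancel this)

/-- In a convex polygon without straight corners, two sides with the same direction are equal. -/
theorem b9_unique (hT : T.Straight) (hconv : Convex ℝ T.region)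
    (hcorner : ∀ i, deriv (T.γ (i + 1)) 0 ≠ deriv (T.γ i) 0) {i j : Fin n}
    (h : deriv (T.γ j) 0 = deriv (T.γ i) 0) : j = i := by
  obtain ⟨p, u, hpu⟩ := hT i
  obtain ⟨q, w, hqw⟩ := hT j
  rw [na_deriv hpu, na_deriv hqw] at h
  subst h
  have hi := T.len_pos i
  have hj := T.len_pos j
  have hu := na_norm hpu
  have hcl : ∀ (k : Fin n) (r : ℝ), r ∈ Icc 0 (T.len k) → T.γ k r ∈ closure T.region :=
    fun k r hr => frontier_subset_closure (T.arc_mem_frontier k hr)
  -- the point in the middle of side `j` is on the line of side `i`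
  have hm : T.len j / 2 ∈ Icc 0 (T.len j) := ⟨by linarith, by linarith⟩
  set x := T.γ j (T.len j / 2) with hx
  have n1 := left_of_convex hconv hpu (hcl j _ hm)
  have n2 := left_of_convex hconv hqw (hcl i 0 ⟨le_refl _, hi.le⟩)
  have ex : x = T.γ j 0 + ((T.len j / 2 : ℝ) : ℂ) * w := by rw [hx, hqw, hqw]; push_cast; ring
  have hx0 : ip (x - T.γ i 0) (Complex.I * w) = 0 := by
    rw [← hx, ex, show T.γ j 0 + ((T.len j / 2 : ℝ) : ℂ) * w - T.γ i 0 =
      -(T.γ i 0 - T.γ j 0) + ((T.len j / 2 : ℝ) : ℂ) * w by ring, ip_add_left, ip_rmul_left,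
      ip_I_self, ip_neg_left] at n1
    rw [ex, show T.γ j 0 + ((T.len j / 2 : ℝ) : ℂ) * w - T.γ i 0 =
      -(T.γ i 0 - T.γ j 0) + ((T.len j / 2 : ℝ) : ℂ) * w by ring, ip_add_left, ip_rmul_left,
      ip_I_self, ip_neg_left]
    linarith
  set σ := ip (x - T.γ i 0) w with hσ
  have hxσ : x = T.γ i 0 + (σ : ℂ) * w := by
    have := ip_decomp (x - T.γ i 0) w hu
    rw [hx0, ← hσ] at this
    push_cast at this
    linear_combination this
  have hσ0 : 0 ≤ σ := by
    by_contra hneg
    push Not at hneg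
    obtain ⟨p', u', hpu'⟩ := hT (i - 1)
    have hk1 : i - 1 + 1 = i := sub_add_cancel i 1
    have ht := b9_turn hT hconv hcorner (i - 1)
    rw [hk1, na_deriv hpu, na_deriv hpu'] at ht
    have hjoin : T.γ (i - 1) (T.len (i - 1)) = T.γ i 0 := by rw [T.closed, hk1]
    have m1 := left_of_convex hconv hpu' (hcl j _ hm)
    have e1 : T.γ i 0 = T.γ (i - 1) 0 + (T.len (i - 1) : ℂ) * u' := by
      rw [← hjoin, hpu', hpu']; push_cast; ring
    rw [← hx, hxσ, e1, show T.γ (i - 1) 0 + (T.len (i - 1) : ℂ) * u' + (σ : ℂ) * w -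
      T.γ (i - 1) 0 = (T.len (i - 1) : ℂ) * u' + (σ : ℂ) * w by ring, ip_add_left, ip_rmul_left,
      ip_rmul_left, ip_I_self] at m1
    have hanti : ip u' (Complex.I * w) = -ip w (Complex.I * u') := by
      unfold ip; simp; ring
    rw [hanti] at ht
    nlinarith
  have hσ1 : σ ≤ T.len i := by
    by_contra hneg
    push Not at hneg
    obtain ⟨p', u', hpu'⟩ := hT (i + 1)
    have ht := b9_turn hT hconv hcorner i
    rw [na_deriv hpu, na_deriv hpu'] at ht
    have hjoin : T.γ i (T.len i) = T.γ (i + 1) 0 := T.closed i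
    have m1 := left_of_convex hconv hpu' (hcl j _ hm)
    have e1 : T.γ i 0 = T.γ (i + 1) 0 - (T.len i : ℂ) * w := by
      rw [← hjoin, hpu, hpu]; push_cast; ring
    rw [← hx, hxσ, e1, show T.γ (i + 1) 0 - (T.len i : ℂ) * w + (σ : ℂ) * w - T.γ (i + 1) 0 =
      ((σ - T.len i : ℝ) : ℂ) * w by push_cast; ring, ip_rmul_left] at m1
    nlinarith
  have hxe : T.γ i σ = T.γ j (T.len j / 2) := by
    rw [← hx, hxσ, hpu, hpu]; push_cast; ring
  rcases hσ1.lt_or_eq with h1 | h1
  · exact (T.inj i j σ (T.len j / 2) ⟨hσ0, h1⟩ ⟨by linarith, by linarith⟩ hxe).1.symm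
  · rw [h1, T.closed i] at hxe
    have := (T.inj (i + 1) j 0 (T.len j / 2) ⟨le_refl _, T.len_pos _⟩
      ⟨by linarith, by linarith⟩ hxe).2
    linarith

end Table

namespace SemiDisp

variable {n : ℕ} [NeZero n] (T : SemiDisp n)

theorem b9_inn {i : Fin n} (hi : i ∉ T.disp) : T.Y.inn i = T.P.inn i := by
  rw [Table.inn, Table.inn, (T.neutral i hi).2]

/-- Convex polygon without straight corners: neutral sides next to a dispersive side are exposed. -/
theorem exposed_of_adjacent (hconv : Convex ℝ T.P.region)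
    (hcorner : ∀ i, deriv (T.P.γ (i + 1)) 0 ≠ deriv (T.P.γ i) 0) {i : Fin n} (hi : i ∉ T.disp)
    (h : i + 1 ∈ T.disp ∨ i - 1 ∈ T.disp) : T.Y.Exposed T.dispᶜ i := by
  have hn := T.neutral i hi
  obtain ⟨p, u, hpu⟩ := T.straight i
  have hcl : ∀ x, x ∈ closure T.Y.region → x ∈ closure T.P.region := fun x hx =>
    closure_mono T.sub hx
  rcases h with h | h
  · left
    obtain ⟨p', u', hpu'⟩ := T.straight (i + 1)
    intro j hj hji t ht hmem
    have ht' := Table.b9_turn T.straight hconv hcorner i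
    have m1 := Table.left_of_convex hconv hpu' (hcl _ (hmem t ⟨ht, le_refl _⟩))
    rw [hn.1, hn.2, T.P.closed i, add_sub_cancel_left, ip_rmul_left] at m1
    rw [Table.na_deriv hpu'] at ht'
    have ht0 : t = 0 := by
      by_contra hne
      have : 0 < t := lt_of_le_of_ne ht (Ne.symm hne)
      nlinarith
    rw [ht0, Complex.ofReal_zero, zero_mul, add_zero]
    refine Table.b9_end hji ?_
    rintro rfl
    exact hj h
  · right
    obtain ⟨p', u', hpu'⟩ := T.straight (i - 1)
    intro j hj hji t ht hmem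
    have hk1 : i - 1 + 1 = i := sub_add_cancel i 1
    have ht' := Table.b9_turn T.straight hconv hcorner (i - 1)
    rw [hk1] at ht'
    have m1 := Table.left_of_convex hconv hpu' (hcl _ (hmem t ⟨ht, le_refl _⟩))
    have e1 : T.P.γ i 0 = T.P.γ (i - 1) 0 + (T.P.len (i - 1) : ℂ) * u' := by
      rw [← hk1, ← T.P.closed, hk1, hpu', hpu']; push_cast; ring
    rw [hn.2, e1, show T.P.γ (i - 1) 0 + (T.P.len (i - 1) : ℂ) * u' +
      (t : ℂ) * -deriv (T.P.γ i) 0 - T.P.γ (i - 1) 0 = (T.P.len (i - 1) : ℂ) * u' +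
      ((-t : ℝ) : ℂ) * deriv (T.P.γ i) 0 by push_cast; ring, ip_add_left, ip_rmul_left,
      ip_rmul_left, ip_I_self] at m1
    rw [Table.na_deriv hpu'] at ht'
    have hanti : ip u' (Complex.I * deriv (T.P.γ i) 0) =
        -ip (deriv (T.P.γ i) 0) (Complex.I * u') := by
      unfold ip; simp; ring
    rw [hanti] at ht'
    have ht0 : t = 0 := by
      by_contra hne
      have : 0 < t := lt_of_le_of_ne ht (Ne.symm hne)
      nlinarith
    rw [ht0, Complex.ofReal_zero, zero_mul, add_zero]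
    have e2 : T.Y.γ i 0 = T.Y.γ (i - 1) (T.Y.len (i - 1)) := by rw [T.Y.closed, hk1]
    rw [e2]
    refine Table.b9_end ?_ ?_
    · rintro rfl
      exact hj h
    · rw [hk1]; exact hji

open Fin.NatCast in
/-- If there is a neutral side, some neutral side is followed by a dispersive side. -/
theorem b9_some {i : Fin n} (hi : i ∉ T.disp) : ∃ j, j ∉ T.disp ∧ j + 1 ∈ T.disp := by
  by_contra hcon
  push Not at hcon
  have h1 : ∀ k : ℕ, i + (k : Fin n) ∉ T.disp := by
    intro k
    induction k with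
    | zero => simpa using hi
    | succ k ih =>
      have := hcon _ ih
      rwa [add_assoc, ← Nat.cast_succ] at this
  obtain ⟨j, hj⟩ := T.disp_nonempty
  have h2 := h1 (j - i).val
  rw [Fin.cast_val_eq_self, add_sub_cancel] at h2
  exact h2 hj

/-- Convex polygon without straight corners, all neutral sides parallel to two directions. -/
theorem hyperbolic_of_two_directions (hconv : Convex ℝ T.P.region)
    (hcorner : ∀ i, deriv (T.P.γ (i + 1)) 0 ≠ deriv (T.P.γ i) 0) (u w : ℂ)
    (h : ∀ i, i ∉ T.disp → (deriv (T.P.γ i) 0 = u ∨ deriv (T.P.γ i) 0 = -u) ∨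
      (deriv (T.P.γ i) 0 = w ∨ deriv (T.P.γ i) 0 = -w)) : T.Y.Hyperbolic := by
  by_cases hne : ∃ i, i ∉ T.disp
  swap
  · push Not at hne
    exact T.hyperbolic_of_barred (Or.inl ⟨1, 1, by simp, by simp, fun i hi => absurd (hne i) hi⟩)
  obtain ⟨i0, hi0⟩ := hne
  obtain ⟨i, hi, hi1⟩ := T.b9_some hi0
  have hexp := T.exposed_of_adjacent hconv hcorner hi (Or.inl hi1)
  have hnorm : ∀ k, ‖deriv (T.P.γ k) 0‖ = 1 := fun k => by
    obtain ⟨p, v, hv⟩ := T.straight k
    rw [Table.na_deriv hv]; exact Table.na_norm hv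
  -- `a` is the direction class which does not contain side `i`
  have key : ∀ a : ℂ, (∀ k, k ∉ T.disp → (deriv (T.P.γ k) 0 = a ∨ deriv (T.P.γ k) 0 = -a) ∨
      (deriv (T.P.γ k) 0 = deriv (T.P.γ i) 0 ∨ deriv (T.P.γ k) 0 = -deriv (T.P.γ i) 0)) →
      T.Y.Hyperbolic := by
    intro a ha
    by_cases hex : ∃ k, k ∉ T.disp ∧ (deriv (T.P.γ k) 0 = a ∨ deriv (T.P.γ k) 0 = -a)
    · obtain ⟨k0, hk0, hk0'⟩ := hex
      have hna : ‖a‖ = 1 := by
        rcases hk0' with h1 | h1
        · rw [← h1]; exact hnorm _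
        · rw [← norm_neg, ← h1]; exact hnorm _
      refine T.hyperbolic_of_barred (Or.inl ⟨a, T.P.inn i, hna, ?_, ?_⟩)
      · rw [Table.inn, norm_mul, Complex.norm_I, one_mul]; exact hnorm _
      · intro k hk
        rw [T.b9_inn hk, Table.inn, Table.inn]
        rcases ha k hk with (h1 | h1) | (h1 | h1)
        · left; left; rw [h1]
        · left; right; rw [h1]; ring
        · have := Table.b9_unique T.straight hconv hcorner h1
          rw [this]
          exact Or.inr (Or.inr ⟨Or.inl rfl, hexp⟩)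
        · right; left; left; rw [h1]; ring
    · push Not at hex
      refine T.hyperbolic_of_barred (Or.inl ⟨deriv (T.P.γ i) 0, 1, hnorm _, by simp, ?_⟩)
      intro k hk
      rw [T.b9_inn hk, Table.inn]
      rcases ha k hk with (h1 | h1) | (h1 | h1)
      · exact absurd h1 (hex k hk).1
      · exact absurd h1 (hex k hk).2
      · left; left; rw [h1]
      · left; right; rw [h1]; ring
  have hneg : ∀ {x y z : ℂ}, (x = y ∨ x = -y) → (z = y ∨ z = -y) → (x = z ∨ x = -z) := by
    rintro x y z (rfl | rfl) (rfl | rfl) <;> simp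
  rcases h i hi with h1 | h1
  · refine key w fun k hk => ?_
    rcases h k hk with h2 | h2
    · exact Or.inr (hneg h2 h1)
    · exact Or.inl h2
  · refine key u fun k hk => ?_
    rcases h k hk with h2 | h2
    · exact Or.inl h2
    · exact Or.inr (hneg h2 h1)

/-- Convex polygon without straight corners, a neutral side `i` next to a dispersive side, a second
one `j` which is its mirror image in a line perpendicular to `b`, and all other neutral sides
parallel to `b`. -/
theorem hyperbolic_of_legs (hconv : Convex ℝ T.P.region)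
    (hcorner : ∀ i, deriv (T.P.γ (i + 1)) 0 ≠ deriv (T.P.γ i) 0) {i j : Fin n} (hi : i ∉ T.disp)
    (hadj : i + 1 ∈ T.disp ∨ i - 1 ∈ T.disp) {b : ℂ} (hb : ‖b‖ = 1)
    (hij : b ^ 2 = deriv (T.P.γ i) 0 * deriv (T.P.γ j) 0)
    (h : ∀ k, k ∉ T.disp → k = i ∨ k = j ∨ deriv (T.P.γ k) 0 = b ∨ deriv (T.P.γ k) 0 = -b) :
    T.Y.Hyperbolic := by
  have hexp := T.exposed_of_adjacent hconv hcorner hi hadj
  have hnorm : ∀ k, ‖deriv (T.P.γ k) 0‖ = 1 := fun k => by
    obtain ⟨p, v, hv⟩ := T.straight k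
    rw [Table.na_deriv hv]; exact Table.na_norm hv
  have hcc := b7_conj (hnorm i)
  refine T.hyperbolic_of_barred (Or.inl ⟨b, T.P.inn i, hb, ?_, ?_⟩)
  · rw [Table.inn, norm_mul, Complex.norm_I, one_mul]; exact hnorm _
  · intro k hk
    rw [T.b9_inn hk]
    rcases h k hk with rfl | rfl | h1 | h1
    · exact Or.inr (Or.inr ⟨Or.inl rfl, hexp⟩)
    · right; left; right
      rw [Table.mir, Table.inn, Table.inn, map_mul, Complex.conj_I, hij]
      linear_combination (-(Complex.I * deriv (T.P.γ k) 0)) * hcc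
    · left; left; rw [Table.inn, h1]
    · left; right; rw [Table.inn, h1]; ring

/-- Convex polygon without straight corners, a neutral side `i` next to a dispersive side, all other
neutral sides parallel or perpendicular to `b`. -/
theorem hyperbolic_of_rect (hconv : Convex ℝ T.P.region)
    (hcorner : ∀ i, deriv (T.P.γ (i + 1)) 0 ≠ deriv (T.P.γ i) 0) {i : Fin n} (hi : i ∉ T.disp)
    (hadj : i + 1 ∈ T.disp ∨ i - 1 ∈ T.disp) {b : ℂ} (hb : ‖b‖ = 1)
    (h : ∀ k, k ∉ T.disp → k = i ∨ (deriv (T.P.γ k) 0 = b ∨ deriv (T.P.γ k) 0 = -b) ∨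
      (deriv (T.P.γ k) 0 = Complex.I * b ∨ deriv (T.P.γ k) 0 = -(Complex.I * b))) :
    T.Y.Hyperbolic := by
  have hexp := T.exposed_of_adjacent hconv hcorner hi hadj
  have hnorm : ∀ k, ‖deriv (T.P.γ k) 0‖ = 1 := fun k => by
    obtain ⟨p, v, hv⟩ := T.straight k
    rw [Table.na_deriv hv]; exact Table.na_norm hv
  refine T.hyperbolic_of_barred (Or.inr ⟨b, T.P.inn i, hb, ?_, ?_⟩)
  · rw [Table.inn, norm_mul, Complex.norm_I, one_mul]; exact hnorm _
  · intro k hk
    rw [T.b9_inn hk]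
    have hII : Complex.I * Complex.I = -1 := Complex.I_mul_I
    rcases h k hk with rfl | (h1 | h1) | (h1 | h1)
    · exact Or.inr (Or.inr ⟨Or.inl rfl, hexp⟩)
    · left; left; rw [Table.inn, h1]
    · left; right; rw [Table.inn, h1]; ring
    · right; left; right; rw [Table.inn, h1]; linear_combination b * hII
    · right; left; left; rw [Table.inn, h1]; linear_combination (-b) * hII

end SemiDisp

namespace SemiDisp

variable (T : SemiDisp 4)

/-- An isosceles triangle with a corner cut off (by one dispersive side). -/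
theorem hyperbolic_isosceles (hconv : Convex ℝ T.P.region)
    (hcorner : ∀ i, deriv (T.P.γ (i + 1)) 0 ≠ deriv (T.P.γ i) 0) (h0 : T.disp = {0})
    (h : deriv (T.P.γ 1) 0 ^ 2 = deriv (T.P.γ 2) 0 * deriv (T.P.γ 3) 0 ∨
      deriv (T.P.γ 2) 0 ^ 2 = deriv (T.P.γ 1) 0 * deriv (T.P.γ 3) 0 ∨
      deriv (T.P.γ 3) 0 ^ 2 = deriv (T.P.γ 1) 0 * deriv (T.P.γ 2) 0) : T.Y.Hyperbolic := by
  have hnorm : ∀ k, ‖deriv (T.P.γ k) 0‖ = 1 := fun k => by
    obtain ⟨p, v, hv⟩ := T.straight k
    rw [Table.na_deriv hv]; exact Table.na_norm hv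
  have h1 : (1 : Fin 4) ∉ T.disp := by rw [h0]; decide
  have h3 : (3 : Fin 4) ∉ T.disp := by rw [h0]; decide
  have a1 : (1 : Fin 4) + 1 ∈ T.disp ∨ (1 : Fin 4) - 1 ∈ T.disp := by
    right; rw [h0]; decide
  have a3 : (3 : Fin 4) + 1 ∈ T.disp ∨ (3 : Fin 4) - 1 ∈ T.disp := by
    left; rw [h0]; decide
  have hall : ∀ k : Fin 4, k ∉ T.disp → k = 1 ∨ k = 2 ∨ k = 3 := by
    intro k hk
    rw [h0] at hk
    fin_cases k
    · exact absurd rfl hk
    · simp
    · simp
    · simp
  rcases h with h | h | h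
  · refine T.hyperbolic_of_legs hconv hcorner (i := 3) (j := 2) h3 a3 (hnorm 1)
      (by rw [h]; ring) fun k hk => ?_
    rcases hall k hk with rfl | rfl | rfl <;> simp
  · refine T.hyperbolic_of_legs hconv hcorner (i := 1) (j := 3) h1 a1 (hnorm 2) h fun k hk => ?_
    rcases hall k hk with rfl | rfl | rfl <;> simp
  · refine T.hyperbolic_of_legs hconv hcorner (i := 1) (j := 2) h1 a1 (hnorm 3) h fun k hk => ?_
    rcases hall k hk with rfl | rfl | rfl <;> simp

/-- A right triangle with a corner cut off which is not the right angle (by one dispersive side). -/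
theorem hyperbolic_right (hconv : Convex ℝ T.P.region)
    (hcorner : ∀ i, deriv (T.P.γ (i + 1)) 0 ≠ deriv (T.P.γ i) 0) (h0 : T.disp = {0})
    (h : deriv (T.P.γ 2) 0 = Complex.I * deriv (T.P.γ 1) 0 ∨
      deriv (T.P.γ 3) 0 = Complex.I * deriv (T.P.γ 2) 0) : T.Y.Hyperbolic := by
  have hnorm : ∀ k, ‖deriv (T.P.γ k) 0‖ = 1 := fun k => by
    obtain ⟨p, v, hv⟩ := T.straight k
    rw [Table.na_deriv hv]; exact Table.na_norm hv
  have h1 : (1 : Fin 4) ∉ T.disp := by rw [h0]; decide
  have h3 : (3 : Fin 4) ∉ T.disp := by rw [h0]; decide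
  have a1 : (1 : Fin 4) + 1 ∈ T.disp ∨ (1 : Fin 4) - 1 ∈ T.disp := by
    right; rw [h0]; decide
  have a3 : (3 : Fin 4) + 1 ∈ T.disp ∨ (3 : Fin 4) - 1 ∈ T.disp := by
    left; rw [h0]; decide
  have hall : ∀ k : Fin 4, k ∉ T.disp → k = 1 ∨ k = 2 ∨ k = 3 := by
    intro k hk
    rw [h0] at hk
    fin_cases k
    · exact absurd rfl hk
    · simp
    · simp
    · simp
  rcases h with h | h
  · refine T.hyperbolic_of_rect hconv hcorner (i := 3) h3 a3 (hnorm 1) fun k hk => ?_
    rcases hall k hk with rfl | rfl | rfl <;> simp [h]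
  · refine T.hyperbolic_of_rect hconv hcorner (i := 1) h1 a1 (hnorm 2) fun k hk => ?_
    rcases hall k hk with rfl | rfl | rfl <;> simp [h]

end SemiDisp

end

end Pool.Agent.MP2e716c
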