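import Pool.Agent.H.MP_2e716c_an.Defs

/-! Exposed sides and barred sets of sides (MP_2e716c_an, helper20): definitions. -/

open Set

namespace Pool.Agent.MP2e716c

noncomputable section

namespace Table

variable {n : ℕ} [NeZero n] (T : Table n)

/-- Starting at the end point `p` of arc `i` and moving in direction `u`, as long as one stays in
the closed region one does not meet an arc of `S` other than `i`. -/
def Clear (S : Set (Fin n)) (i : Fin n) (p u : ℂ) : Prop :=
  ∀ j ∈ S, j ≠ i → ∀ t : ℝ, 0 ≤ t → (∀ s ∈ Icc 0 t, p + s * u ∈ closure T.region) →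
    p + t * u ∉ T.γ j '' Icc 0 (T.len j)

/-- The (straight) arc `i` is exposed with respect to `S`: prolonging it beyond one of its two end
points (end point included) inside the closed region one does not meet another arc of `S`. -/
def Exposed (S : Set (Fin n)) (i : Fin n) : Prop :=
  T.Clear S i (T.γ i (T.len i)) (deriv (T.γ i) 0) ∨ T.Clear S i (T.γ i 0) (-deriv (T.γ i) 0)

/-- The inner normal of arc `i` (at its starting point; used for straight arcs). -/
def inn (i : Fin n) : ℂ := Complex.I * deriv (T.γ i) 0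

/-- Mirror image of `w` in the line of direction `b` through `0` (for `|b| = 1`). -/
def mir (b w : ℂ) : ℂ := b ^ 2 * (starRingEnd ℂ) w

/-- One-sided barriers: every side of `S` is parallel to `b`, or its inner normal is `-ν` or minus
the mirror image of `ν` in `b`, or its inner normal is `ν` or the mirror image of `ν` and it is
exposed. -/
def BarredOne (S : Set (Fin n)) : Prop := ∃ b ν : ℂ, ‖b‖ = 1 ∧ ‖ν‖ = 1 ∧ ∀ i ∈ S,
  (T.inn i = Complex.I * b ∨ T.inn i = -(Complex.I * b)) ∨
  (T.inn i = -ν ∨ T.inn i = -mir b ν) ∨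
  ((T.inn i = ν ∨ T.inn i = mir b ν) ∧ T.Exposed S i)

/-- Two-sided barriers: every side of `S` is parallel or perpendicular to `b`, or its normal is
`±ν` or `±` the mirror image of `ν` in `b` and it is exposed. -/
def BarredTwo (S : Set (Fin n)) : Prop := ∃ b ν : ℂ, ‖b‖ = 1 ∧ ‖ν‖ = 1 ∧ ∀ i ∈ S,
  (T.inn i = Complex.I * b ∨ T.inn i = -(Complex.I * b)) ∨ (T.inn i = b ∨ T.inn i = -b) ∨
  ((T.inn i = ν ∨ T.inn i = -ν ∨ T.inn i = mir b ν ∨ T.inn i = -mir b ν) ∧ T.Exposed S i)

/-- One of the two. -/
def Barred (S : Set (Fin n)) : Prop := T.BarredOne S ∨ T.BarredTwo S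

end Table

end

end Pool.Agent.MP2e716c
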